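import Mathlib

namespace Pool.Agent.H713Z.Prim

open Finset

section swindle

variable {𝕜 : Type*} [RCLike 𝕜] {X : Type*} [NormedAddCommGroup X] [NormedSpace 𝕜 X]

/-- `X` is an `l2` sum of copies of itself, through the coordinate maps `V n`. -/
structure L2Stable (V : ℕ → X →L[𝕜] X) : Prop where
  ext : ∀ x, (∀ n, V n x = 0) → x = 0
  low : ∀ x (N : ℕ), ∑ n ∈ range N, ‖V n x‖ ^ 2 ≤ ‖x‖ ^ 2
  asm : ∀ (z : ℕ → X) (M : ℝ), (∀ N : ℕ, ∑ n ∈ range N, ‖z n‖ ^ 2 ≤ M) →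
    ∃ x, (∀ n, V n x = z n) ∧ ‖x‖ ^ 2 ≤ M

theorem L2Stable.ext' {V : ℕ → X →L[𝕜] X} (h : L2Stable V) {x y : X}
    (hxy : ∀ n, V n x = V n y) : x = y := by
  rw [← sub_eq_zero]
  exact h.ext _ (fun n => by rw [map_sub, hxy n, sub_self])

theorem L2Stable.op {V : ℕ → X →L[𝕜] X} (h : L2Stable V) (T : ℕ → X →L[𝕜] X) (C : ℝ)
    (hC : 0 ≤ C) (hT : ∀ x (N : ℕ), ∑ n ∈ range N, ‖T n x‖ ^ 2 ≤ (C * ‖x‖) ^ 2) :
    ∃ A : X →L[𝕜] X, ∀ x n, V n (A x) = T n x := by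
  choose f hf hf2 using fun x => h.asm (fun n => T n x) _ (hT x)
  let L : X →ₗ[𝕜] X :=
    { toFun := f
      map_add' := fun x y => h.ext' (fun n => by rw [map_add, hf, hf, hf, map_add])
      map_smul' := fun c x => h.ext' (fun n => by
        rw [RingHom.id_apply, map_smul, hf, hf, map_smul]) }
  refine ⟨L.mkContinuous C (fun x => ?_), fun x n => hf x n⟩
  exact (pow_le_pow_iff_left₀ (norm_nonneg _) (by positivity) two_ne_zero).1 (hf2 x)

theorem L2Stable.diag_bound {V : ℕ → X →L[𝕜] X} (h : L2Stable V) (R : X →L[𝕜] X) (x : X)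
    (N : ℕ) : ∑ n ∈ range N, ‖R (V n x)‖ ^ 2 ≤ (‖R‖ * ‖x‖) ^ 2 := by
  calc ∑ n ∈ range N, ‖R (V n x)‖ ^ 2 ≤ ∑ n ∈ range N, ‖R‖ ^ 2 * ‖V n x‖ ^ 2 := by
        refine sum_le_sum (fun n _ => ?_)
        rw [← mul_pow]
        exact pow_le_pow_left₀ (norm_nonneg _) (R.le_opNorm _) 2
    _ = ‖R‖ ^ 2 * ∑ n ∈ range N, ‖V n x‖ ^ 2 := by rw [mul_sum]
    _ ≤ ‖R‖ ^ 2 * ‖x‖ ^ 2 := by gcongr; exact h.low x N
    _ = _ := by ring

/-- a sequence given by its first term and its tail -/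
def cns {α : Type*} (a : α) (f : ℕ → α) : ℕ → α
  | 0 => a
  | n + 1 => f n

@[simp] theorem cns_zero {α : Type*} (a : α) (f : ℕ → α) : cns a f 0 = a := rfl
@[simp] theorem cns_succ {α : Type*} (a : α) (f : ℕ → α) (n : ℕ) : cns a f (n + 1) = f n := rfl

theorem L2Stable.swindle {V : ℕ → X →L[𝕜] X} (h : L2Stable V) (R : X →L[𝕜] X)
    (hR : ∀ x, R (R x) = R x) (W : Submodule 𝕜 X) (hW : ∀ x, x ∈ W ↔ R x = x) :
    Nonempty ((W × X) ≃L[𝕜] X) := by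
  obtain ⟨Q, hQ⟩ : ∃ Q : X →L[𝕜] X, ∀ x, Q x = x - R x := ⟨1 - R, fun x => rfl⟩
  obtain ⟨D, hD⟩ := h.op (fun n => Q ∘L V n) ‖Q‖ (norm_nonneg _)
    (fun x N => by
      simp only [ContinuousLinearMap.comp_apply]
      exact h.diag_bound Q x N)
  obtain ⟨Sh, hSh⟩ := h.op (cns 0 (fun m => R ∘L V m)) ‖R‖ (norm_nonneg _)
    (fun x N => by
      cases N with
      | zero => simp only [range_zero, sum_empty]; positivity
      | succ N =>
        rw [sum_range_succ']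
        have := h.diag_bound R x N
        simp only [cns_zero, cns_succ, ContinuousLinearMap.comp_apply,
          zero_apply, norm_zero]
        linarith)
  obtain ⟨Sb, hSb⟩ := h.op (fun n => R ∘L V (n + 1)) ‖R‖ (norm_nonneg _)
    (fun x N => by
      have := h.diag_bound R x (N + 1)
      rw [sum_range_succ'] at this
      have h0 : 0 ≤ ‖R (V 0 x)‖ ^ 2 := by positivity
      simp only [ContinuousLinearMap.comp_apply]
      linarith)
  obtain ⟨U, hU⟩ := h.op (cns 1 (fun _ => 0)) 1 zero_le_one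
    (fun x N => by
      cases N with
      | zero => simp only [range_zero, sum_empty]; positivity
      | succ N =>
        rw [sum_range_succ']
        simp)
  let Φ : (W × X) →L[𝕜] X :=
    U ∘L W.subtypeL ∘L ContinuousLinearMap.fst 𝕜 W X + (D + Sh) ∘L ContinuousLinearMap.snd 𝕜 W X
  let Ψ : X →L[𝕜] (W × X) :=
    ((R ∘L V 0).codRestrict W (fun x => (hW _).2 (hR _))).prod (D + Sb)
  have hΦ : ∀ p : W × X, Φ p = U p.1 + (D p.2 + Sh p.2) := fun p => rfl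
  have hΨ1 : ∀ x, ((Ψ x).1 : X) = R (V 0 x) := fun x => rfl
  have hΨ2 : ∀ x, (Ψ x).2 = D x + Sb x := fun x => rfl
  refine ⟨ContinuousLinearEquiv.equivOfInverse Φ Ψ (fun p => ?_) (fun x => ?_)⟩
  · have hp : R p.1 = p.1 := (hW _).1 p.1.2
    refine Prod.ext (Subtype.ext ?_) (h.ext' (fun n => ?_))
    · rw [hΨ1, hΦ]
      simp [hU, hD, hSh, hp, hR, hQ]
    · rw [hΨ2, hΦ]
      cases n with
      | zero => simp [hU, hD, hSh, hSb, hp, hR, hQ]
      | succ n => simp [hU, hD, hSh, hSb, hR, hQ]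
  · refine h.ext' (fun n => ?_)
    rw [hΦ, hΨ1, hΨ2]
    cases n with
    | zero => simp [hU, hD, hSh, hSb, hR, hQ]
    | succ n => simp [hU, hD, hSh, hSb, hR, hQ]

theorem L2Stable.iso_of_factor {V : ℕ → X →L[𝕜] X} (h : L2Stable V) (Y : Submodule 𝕜 X)
    (P : X →L[𝕜] X) (hP : ∀ x, P x ∈ Y) (hP2 : ∀ y ∈ Y, P y = y) (A B : X →L[𝕜] X)
    (hAB : ∀ x, A (P (B x)) = x) : Nonempty (Y ≃L[𝕜] X) := by
  let R : X →L[𝕜] X := P - P ∘L B ∘L A ∘L P
  have hRa : ∀ x, R x = P x - P (B (A (P x))) := fun x => rfl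
  have hPP : ∀ x, P (P x) = P x := fun x => hP2 _ (hP x)
  have hR : ∀ x, R (R x) = R x := fun x => by
    simp only [hRa, map_sub, hPP, hAB, sub_self, sub_zero, map_zero]
  let W : Submodule 𝕜 X := LinearMap.ker ((R - 1 : X →L[𝕜] X) : X →ₗ[𝕜] X)
  have hW : ∀ x, x ∈ W ↔ R x = x := fun x => by
    simp [W, sub_eq_zero]
  obtain ⟨e⟩ := h.swindle R hR W hW
  have hWY : ∀ w : W, (w : X) ∈ Y := fun w => by
    rw [← (hW _).1 w.2, hRa]
    exact Y.sub_mem (hP _) (hP _)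
  have hAW : ∀ w : W, A w = 0 := fun w => by
    rw [← (hW _).1 w.2, hRa, map_sub, hAB, sub_self]
  let F : Y →L[𝕜] (W × X) :=
    ((R ∘L Y.subtypeL).codRestrict W (fun x => (hW _).2 (hR _))).prod (A ∘L Y.subtypeL)
  let G : (W × X) →L[𝕜] Y :=
    (W.subtypeL ∘L ContinuousLinearMap.fst 𝕜 W X
      + P ∘L B ∘L ContinuousLinearMap.snd 𝕜 W X).codRestrict Y
      (fun p => Y.add_mem (hWY p.1) (hP _))
  have hF1 : ∀ y : Y, ((F y).1 : X) = R y := fun y => rfl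
  have hF2 : ∀ y : Y, (F y).2 = A y := fun y => rfl
  have hG : ∀ p : W × X, (G p : X) = p.1 + P (B p.2) := fun p => rfl
  refine ⟨(ContinuousLinearEquiv.equivOfInverse F G (fun y => ?_) (fun p => ?_)).trans e⟩
  · refine Subtype.ext ?_
    rw [hG, hF1, hF2, hRa, hP2 _ y.2]
    abel
  · refine Prod.ext (Subtype.ext ?_) ?_
    · rw [hF1, hG, map_add, (hW _).1 p.1.2, hRa, hPP, hAB]
      abel
    · rw [hF2, hG, map_add, hAW, hAB, zero_add]

theorem L2Stable.dec [CompleteSpace X] {V : ℕ → X →L[𝕜] X} (h : L2Stable V)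
    (hpfp : ∀ T : X →L[𝕜] X, (∃ A B : X →L[𝕜] X, ∀ x, A (T (B x)) = x) ∨
      (∃ A B : X →L[𝕜] X, ∀ x, A ((1 - T) (B x)) = x))
    (Y Z : Submodule 𝕜 X) (hY : IsClosed (Y : Set X)) (hZ : IsClosed (Z : Set X))
    (hc : IsCompl Y Z) : Nonempty (Y ≃L[𝕜] X) ∨ Nonempty (Z ≃L[𝕜] X) := by
  have ht := Submodule.IsCompl.isTopCompl_of_isClosed hc hY hZ
  let P : X →L[𝕜] X := Y.subtypeL ∘L Submodule.projectionOntoL Y Z ht
  have hP : ∀ x, P x ∈ Y := fun x => (Submodule.projectionOntoL Y Z ht x).2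
  have hP2 : ∀ y ∈ Y, P y = y := fun y hy => by
    have := Submodule.projectionOntoL_apply_left ht ⟨y, hy⟩
    exact congrArg Subtype.val this
  have hP3 : ∀ z ∈ Z, P z = 0 := fun z hz => by
    have := Submodule.projectionOntoL_apply_right ht ⟨z, hz⟩
    exact congrArg Subtype.val this
  have hP4 : ∀ x, x - P x ∈ Z := fun x => by
    obtain ⟨y, hy, z, hz, rfl⟩ := Submodule.mem_sup.1 (hc.sup_eq_top ▸ Submodule.mem_top (x := x))
    rw [map_add, hP2 y hy, hP3 z hz]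
    simpa using hz
  rcases hpfp P with ⟨A, B, hAB⟩ | ⟨A, B, hAB⟩
  · exact Or.inl (h.iso_of_factor Y P hP hP2 A B hAB)
  · refine Or.inr (h.iso_of_factor Z (1 - P) hP4 (fun z hz => ?_) A B hAB)
    simp [hP3 z hz]

end swindle

section rad

variable {ι : Type*} [DecidableEq ι] {V : Type*} [NormedAddCommGroup V]

/-- signed sum -/
def rad (J s : Finset ι) (a : ι → V) : V := ∑ j ∈ J, if j ∈ s then a j else -a j

theorem rad_insert_notMem {J s : Finset ι} {i : ι} (hi : i ∉ J) (hs : s ⊆ J) (a : ι → V) :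
    rad (insert i J) s a = rad J s a - a i := by
  unfold rad
  rw [sum_insert hi, if_neg (fun h => hi (hs h))]
  abel

theorem rad_insert_mem {J s : Finset ι} {i : ι} (hi : i ∉ J) (a : ι → V) :
    rad (insert i J) (insert i s) a = rad J s a + a i := by
  unfold rad
  rw [sum_insert hi, if_pos (mem_insert_self _ _), add_comm]
  congr 1
  refine sum_congr rfl (fun j hj => ?_)
  have : j ≠ i := fun h => hi (h ▸ hj)
  simp [this]

theorem sum_rad_insert {J : Finset ι} {i : ι} (hi : i ∉ J) (a : ι → V) (g : V → ℝ) :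
    ∑ s ∈ (insert i J).powerset, g (rad (insert i J) s a) =
      ∑ s ∈ J.powerset, (g (rad J s a + a i) + g (rad J s a - a i)) := by
  rw [sum_powerset_insert hi, sum_add_distrib, add_comm]
  congr 1
  · exact sum_congr rfl (fun s _ => by rw [rad_insert_mem hi])
  · exact sum_congr rfl (fun s hs => by rw [rad_insert_notMem hi (mem_powerset.1 hs)])

variable {𝕜 : Type*} [RCLike 𝕜]

theorem rad_sq (J : Finset ι) (a : ι → 𝕜) :
    ∑ s ∈ J.powerset, ‖rad J s a‖ ^ 2 = 2 ^ J.card * ∑ j ∈ J, ‖a j‖ ^ 2 := by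
  induction J using Finset.induction_on with
  | empty => simp [rad]
  | insert i J hi ih =>
    rw [sum_rad_insert hi a (fun v => ‖v‖ ^ 2), sum_insert hi, card_insert_of_notMem hi]
    have : ∀ s ∈ J.powerset, ‖rad J s a + a i‖ ^ 2 + ‖rad J s a - a i‖ ^ 2 =
        2 * ‖rad J s a‖ ^ 2 + 2 * ‖a i‖ ^ 2 := fun s _ => by
      have := parallelogram_law_with_norm 𝕜 (rad J s a) (a i)
      nlinarith
    rw [sum_congr rfl this, sum_add_distrib, ← mul_sum, ih, sum_const, card_powerset]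
    simp only [nsmul_eq_mul, Nat.cast_pow, Nat.cast_ofNat]
    ring

theorem rad_four (J : Finset ι) (a : ι → 𝕜) :
    ∑ s ∈ J.powerset, ‖rad J s a‖ ^ 4 ≤ 3 * 2 ^ J.card * (∑ j ∈ J, ‖a j‖ ^ 2) ^ 2 := by
  induction J using Finset.induction_on with
  | empty => simp [rad]
  | insert i J hi ih =>
    rw [sum_rad_insert hi a (fun v => ‖v‖ ^ 4), sum_insert hi, card_insert_of_notMem hi]
    have : ∀ s ∈ J.powerset, ‖rad J s a + a i‖ ^ 4 + ‖rad J s a - a i‖ ^ 4 ≤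
        2 * ‖rad J s a‖ ^ 4 + 12 * ‖a i‖ ^ 2 * ‖rad J s a‖ ^ 2 + 2 * ‖a i‖ ^ 4 := fun s _ => by
      have h1 := parallelogram_law_with_norm 𝕜 (rad J s a) (a i)
      have h2 : ‖rad J s a + a i‖ ^ 2 ≤ (‖rad J s a‖ + ‖a i‖) ^ 2 :=
        pow_le_pow_left₀ (norm_nonneg _) (norm_add_le _ _) 2
      have h3 : ‖rad J s a - a i‖ ^ 2 ≤ (‖rad J s a‖ + ‖a i‖) ^ 2 :=
        pow_le_pow_left₀ (norm_nonneg _) (norm_sub_le _ _) 2
      set p := ‖rad J s a + a i‖ ^ 2 with hp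
      set q := ‖rad J s a - a i‖ ^ 2 with hq
      set u := ‖rad J s a‖
      set v := ‖a i‖
      have e1 : ‖rad J s a + a i‖ ^ 4 = p ^ 2 := by rw [hp]; ring
      have e2 : ‖rad J s a - a i‖ ^ 4 = q ^ 2 := by rw [hq]; ring
      have e3 : p + q = 2 * (u ^ 2 + v ^ 2) := by rw [hp, hq]; nlinarith
      rw [e1, e2]
      have h4 : (p - q) ^ 2 ≤ (4 * u * v) ^ 2 := by
        apply sq_le_sq'
        · nlinarith
        · nlinarith
      nlinarith
    refine (sum_le_sum this).trans ?_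
    rw [sum_add_distrib, sum_add_distrib, ← mul_sum, ← mul_sum, rad_sq, sum_const, card_powerset]
    simp only [nsmul_eq_mul, Nat.cast_pow, Nat.cast_ofNat]
    set σ := ∑ j ∈ J, ‖a j‖ ^ 2
    have h2 : (0 : ℝ) < 2 ^ J.card := by positivity
    have h3 : (0 : ℝ) ≤ ‖a i‖ ^ 4 := by positivity
    have : (3 : ℝ) * 2 ^ (J.card + 1) * (‖a i‖ ^ 2 + σ) ^ 2 =
      2 * (3 * 2 ^ J.card * σ ^ 2) + 12 * ‖a i‖ ^ 2 * (2 ^ J.card * σ) +
        2 ^ J.card * (6 * ‖a i‖ ^ 4) := by ring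
    rw [this]
    nlinarith [mul_nonneg h2.le h3]

theorem khin (J : Finset ι) (a : ι → 𝕜) :
    2 ^ J.card * √(∑ j ∈ J, ‖a j‖ ^ 2) ≤ 2 * ∑ s ∈ J.powerset, ‖rad J s a‖ := by
  set σ := √(∑ j ∈ J, ‖a j‖ ^ 2) with hσ
  have h0 : 0 ≤ σ := Real.sqrt_nonneg _
  have hσ2 : σ ^ 2 = ∑ j ∈ J, ‖a j‖ ^ 2 := Real.sq_sqrt (by positivity)
  rcases h0.eq_or_lt with h | h
  · rw [← h, mul_zero]; positivity
  have key : ∀ s ∈ J.powerset, σ ^ 2 * ‖rad J s a‖ ^ 2 - 4 / 27 * ‖rad J s a‖ ^ 4 ≤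
      σ ^ 3 * ‖rad J s a‖ := fun s _ => by
    set u := ‖rad J s a‖
    have hu : 0 ≤ u := norm_nonneg _
    have : 0 ≤ u * ((2 * u - 3 * σ) ^ 2 * (u + 3 * σ)) := by positivity
    nlinarith
  have h1 := sum_le_sum key
  rw [sum_sub_distrib, ← mul_sum, ← mul_sum, ← mul_sum, rad_sq, ← hσ2] at h1
  have h2 := rad_four J a
  rw [← hσ2] at h2
  have h3 : σ ^ 3 * (2 ^ J.card * σ) ≤ σ ^ 3 * (2 * ∑ s ∈ J.powerset, ‖rad J s a‖) := by
    have : (0 : ℝ) ≤ 2 ^ J.card * σ ^ 4 := by positivity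
    nlinarith
  exact le_of_mul_le_mul_left h3 (by positivity)

/-- cotype two, tested on families indexed by lists of naturals -/
def Cot (V : Type*) [NormedAddCommGroup V] : Prop :=
  ∃ C : ℝ, 0 ≤ C ∧ ∀ (J : Finset (List ℕ)) (x : List ℕ → V),
    2 ^ J.card * ∑ j ∈ J, ‖x j‖ ^ 2 ≤ C * ∑ s ∈ J.powerset, ‖rad J s x‖ ^ 2

theorem map_rad {V' : Type*} [NormedAddCommGroup V'] {G : Type*} [FunLike G V V']
    [AddMonoidHomClass G V V'] (g : G) (J s : Finset ι) (a : ι → V) :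
    g (rad J s a) = rad J s (fun j => g (a j)) := by
  unfold rad
  rw [map_sum]
  refine sum_congr rfl (fun j _ => ?_)
  split_ifs <;> simp

theorem Cot.of_embed {V' : Type*} [NormedAddCommGroup V'] [NormedSpace 𝕜 V] [NormedSpace 𝕜 V']
    (h : Cot V') (g : V →L[𝕜] V') (K : ℝ) (hg : ∀ v, ‖v‖ ≤ K * ‖g v‖) : Cot V := by
  obtain ⟨C, hC, h⟩ := h
  refine ⟨K ^ 2 * C * ‖g‖ ^ 2, by positivity, fun J x => ?_⟩
  have h1 := h J (fun j => g (x j))
  calc 2 ^ J.card * ∑ j ∈ J, ‖x j‖ ^ 2 ≤ 2 ^ J.card * ∑ j ∈ J, K ^ 2 * ‖g (x j)‖ ^ 2 := by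
        gcongr with j _
        rw [← mul_pow]
        exact pow_le_pow_left₀ (norm_nonneg _) (hg _) 2
    _ = K ^ 2 * (2 ^ J.card * ∑ j ∈ J, ‖g (x j)‖ ^ 2) := by rw [← mul_sum]; ring
    _ ≤ K ^ 2 * (C * ∑ s ∈ J.powerset, ‖rad J s (fun j => g (x j))‖ ^ 2) := by gcongr
    _ ≤ K ^ 2 * (C * ∑ s ∈ J.powerset, ‖g‖ ^ 2 * ‖rad J s x‖ ^ 2) := by
        gcongr with s _
        rw [← map_rad, ← mul_pow]
        exact pow_le_pow_left₀ (norm_nonneg _) (g.le_opNorm _) 2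
    _ = _ := by rw [← mul_sum]; ring

end rad

end Pool.Agent.H713Z.Prim
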