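import Pool.Agent.H713Z.Prim.LemA

namespace Pool.Agent.H713Z.Prim

open Finset

variable {𝕜 : Type*} [RCLike 𝕜]

theorem exists_gamma {ι : Type*} (J : Finset ι) (f : ι → (TX 𝕜 →L[𝕜] 𝕜)) {ε : ℝ} (hε : 0 < ε) :
    ∃ γ : ℝ, 0 < γ ∧ ∀ j ∈ J, ∀ B : Set P, (∀ t ∈ B, ‖f j (bv 𝕜 t)‖ < γ) →
      ‖f j ∘L res B‖ ≤ ε := by
  classical
  induction J using Finset.induction_on with
  | empty => exact ⟨1, one_pos, by simp⟩
  | insert i J _ ih =>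
    obtain ⟨γ, h1, h2⟩ := ih
    obtain ⟨γ', h3, h4⟩ := lemA (f i) hε
    refine ⟨min γ γ', lt_min h1 h3, fun j hj B hB => ?_⟩
    rcases mem_insert.1 hj with rfl | hj
    · refine ContinuousLinearMap.opNorm_le_bound _ hε.le (fun x => ?_)
      have e : res B x = res {t | ‖f j (bv 𝕜 t)‖ < γ'} (res B x) := TX.ext (fun t => by
        by_cases ht : t ∈ B
        · rw [res_c_mem (A := {t | ‖f j (bv 𝕜 t)‖ < γ'}) _ ((hB t ht).trans_le (min_le_right _ _))]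
        · have := res_c_le {t | ‖f j (bv 𝕜 t)‖ < γ'} (res B x) t
          rw [res_c_notMem x ht, norm_zero, norm_le_zero_iff] at this
          rw [this, res_c_notMem x ht])
      rw [ContinuousLinearMap.comp_apply, e, ← ContinuousLinearMap.comp_apply]
      exact (ContinuousLinearMap.le_opNorm _ _).trans
        (mul_le_mul h4 (norm_res_le _ _) (norm_nonneg _) hε.le)
    · exact h2 j hj B (fun t ht => (hB t ht).trans_le (min_le_left _ _))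

theorem exists_net {η : ℝ} (hη : 0 < η) : ∃ (N : Set 𝕜) (r : 𝕜 → 𝕜), N.Finite ∧
    ∀ z : 𝕜, ‖z‖ ≤ 1 → r z ∈ N ∧ ‖z - r z‖ < η := by
  obtain ⟨N, -, h1, h2⟩ := finite_cover_balls_of_compact (isCompact_closedBall (0 : 𝕜) 1) hη
  have : ∀ z : 𝕜, ∃ y, ‖z‖ ≤ 1 → y ∈ N ∧ ‖z - y‖ < η := fun z => by
    by_cases hz : ‖z‖ ≤ 1
    · have := h2 (mem_closedBall_zero_iff.2 hz)
      simp only [Set.mem_iUnion, Metric.mem_ball, dist_eq_norm] at this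
      obtain ⟨y, hy, hy'⟩ := this
      exact ⟨y, fun _ => ⟨hy, hy'⟩⟩
    · exact ⟨0, fun h => absurd h hz⟩
  choose r hr using this
  exact ⟨N, r, h1, hr⟩

theorem simple {ι : Type*} (J : Finset ι) (f : ι → (TX 𝕜 →L[𝕜] 𝕜)) (hf : ∀ j, ‖f j‖ ≤ 1) :
    ∃ (Q : Finset P) (lab : P → P) (χ : P → (TX 𝕜 →L[𝕜] 𝕜)),
      (∀ q ∈ Q, ∀ q' ∈ Q, cmp q q' → lab q = lab q') ∧
      (∀ j ∈ J, ∀ Φ : (TX 𝕜 →L[𝕜] 𝕜) →L[𝕜] 𝕜, (∀ t, Φ (coord t) = 0) →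
        ‖Φ (f j) - ∑ q ∈ Q, f j (bv 𝕜 q) * Φ (χ q)‖ ≤ ‖Φ‖ / 4) ∧
      ∀ (θ : P → 𝕜) (a : P → ℝ), (∀ q ∈ Q, ‖θ q‖ ≤ a (lab q)) →
        ‖∑ q ∈ Q, θ q • χ q‖ ≤ √(∑ i ∈ Q.image lab, a i ^ 2) := by
  classical
  obtain ⟨γ, hγ, hγ2⟩ := exists_gamma J f (ε := 1 / 8) (by norm_num)
  let A : Set P := {t | ∃ j ∈ J, γ ≤ ‖f j (bv 𝕜 t)‖}
  obtain ⟨M, hM⟩ := exists_nat_ge ((J.card : ℝ) / γ ^ 2)
  obtain ⟨G, hG1, hG2, hG3⟩ := exists_max_anti A M (fun G h1 h2 => by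
    have a1 : (G.card : ℝ) * γ ^ 2 ≤ ∑ t ∈ G, ∑ j ∈ J, ‖f j (bv 𝕜 t)‖ ^ 2 := by
      rw [← nsmul_eq_mul, ← sum_const]
      refine sum_le_sum (fun t ht => ?_)
      obtain ⟨j, hj, hj2⟩ := h1 t ht
      exact (pow_le_pow_left₀ hγ.le hj2 2).trans
        (single_le_sum (f := fun j => ‖f j (bv 𝕜 t)‖ ^ 2) (fun _ _ => by positivity) hj)
    have a2 : ∑ t ∈ G, ∑ j ∈ J, ‖f j (bv 𝕜 t)‖ ^ 2 ≤ J.card := by
      rw [sum_comm, card_eq_sum_ones]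
      push_cast
      exact sum_le_sum (fun j _ => (anti_sum_le (f j) h2).trans
        (pow_le_one₀ (norm_nonneg _) (hf j)))
    have a3 : (G.card : ℝ) ≤ M := by
      refine le_trans ?_ hM
      rw [le_div_iff₀ (by positivity)]
      exact a1.trans a2
    exact_mod_cast a3)
  let D : Set P := {t | t ∈ A ∧ ∃ a ∈ G, ple a t}
  have hlab : ∀ t : P, ∃ a, t ∈ D → a ∈ G ∧ ple a t := fun t => by
    by_cases ht : t ∈ D
    · obtain ⟨a, h1, h2⟩ := ht.2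
      exact ⟨a, fun _ => ⟨h1, h2⟩⟩
    · exact ⟨t, fun h => absurd h ht⟩
  choose lab hlab using hlab
  have hD1 : ∀ s ∈ D, ∀ t ∈ D, lab s = lab t → cmp s t := fun s hs t ht h =>
    hG3 _ (hlab s hs).1 s hs.1 t ht.1 (hlab s hs).2 (h ▸ (hlab t ht).2)
  have hD2 : ∀ s ∈ D, ∀ t ∈ D, cmp s t → lab s = lab t := fun s hs t ht h => by
    refine hG1 _ (hlab s hs).1 _ (hlab t ht).1 ?_
    rcases h with h | h
    · exact cmp_of_ple (ple_trans (hlab s hs).2 h) (hlab t ht).2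
    · exact cmp_of_ple (hlab s hs).2 (ple_trans (hlab t ht).2 h)
  let F0 : Finset P := (G.biUnion pred).filter (fun t => t ∈ A ∧ t ∉ D)
  have hF0 : ∀ t, t ∈ F0 ↔ t ∈ A ∧ t ∉ D := fun t => by
    refine ⟨fun h => (mem_filter.1 h).2, fun h => mem_filter.2 ⟨?_, h⟩⟩
    obtain ⟨a, ha, h2⟩ := hG2 t h.1
    rcases h2 with h2 | h2
    · exact absurd ⟨h.1, a, ha, h2⟩ h.2
    · exact mem_biUnion.2 ⟨a, ha, (mem_pred _ _).2 h2⟩
  set η : ℝ := 1 / (16 * (G.card + 1)) with hη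
  have hη0 : 0 < η := by positivity
  obtain ⟨N, r, hN, hr⟩ := exists_net (𝕜 := 𝕜) hη0
  have hf1 : ∀ j t, ‖f j (bv 𝕜 t)‖ ≤ 1 := fun j t => ((f j).le_opNorm _).trans
    (mul_le_one₀ (hf j) (norm_nonneg _) (norm_bv_le t))
  let k : P → P × (J → 𝕜) := fun t => (lab t, fun j => r (f j (bv 𝕜 t)))
  have hk : (k '' D).Finite := by
    refine ((G.finite_toSet).prod (Set.Finite.pi' (fun _ : J => hN))).subset ?_
    rintro _ ⟨t, ht, rfl⟩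
    exact ⟨(hlab t ht).1, fun j => (hr _ (hf1 j t)).1⟩
  let p : P → P := fun t => Function.invFunOn k D (k t)
  have hp1 : ∀ t ∈ D, p t ∈ D := fun t ht => Function.invFunOn_apply_mem ht
  have hp2 : ∀ t ∈ D, k (p t) = k t := fun t ht => Function.invFunOn_apply_eq ht
  have hp3 : ∀ t ∈ D, lab (p t) = lab t := fun t ht => congrArg Prod.fst (hp2 t ht)
  have hp4 : ∀ t ∈ D, ∀ j ∈ J, ‖f j (bv 𝕜 t) - f j (bv 𝕜 (p t))‖ ≤ 2 * η := fun t ht j hj => by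
    have e : r (f j (bv 𝕜 (p t))) = r (f j (bv 𝕜 t)) :=
      congrFun (congrArg Prod.snd (hp2 t ht)) ⟨j, hj⟩
    have a1 := (hr _ (hf1 j t)).2
    have a2 := (hr _ (hf1 j (p t))).2
    rw [e] at a2
    have := norm_sub_le (f j (bv 𝕜 t) - r (f j (bv 𝕜 t))) (f j (bv 𝕜 (p t)) - r (f j (bv 𝕜 t)))
    rw [sub_sub_sub_cancel_right] at this
    linarith
  have hQ : (p '' D).Finite := by
    refine (hk.image (Function.invFunOn k D)).subset ?_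
    rintro _ ⟨t, ht, rfl⟩
    exact ⟨k t, ⟨t, ht, rfl⟩, rfl⟩
  let Q := hQ.toFinset
  have hQ1 : ∀ t ∈ D, p t ∈ Q := fun t ht => hQ.mem_toFinset.2 ⟨t, ht, rfl⟩
  have hQ2 : ∀ q ∈ Q, q ∈ D := fun q hq => by
    obtain ⟨t, ht, rfl⟩ := hQ.mem_toFinset.1 hq
    exact hp1 t ht
  have hχ : ∀ q : P, ∃ χ : TX 𝕜 →L[𝕜] 𝕜, ∀ t, χ (bv 𝕜 t) = if t ∈ D ∧ p t = q then 1 else 0 :=
    fun q => exists_functional _ (K := 1) (fun x F => by
      rw [one_mul]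
      refine le_trans (le_of_eq ?_) (chain_sum_le x (F := F.filter (fun t => t ∈ D ∧ p t = q))
        (fun s hs t ht => ?_))
      · rw [sum_filter]
        refine sum_congr rfl (fun t _ => ?_)
        split_ifs <;> simp
      · have a1 := (mem_filter.1 hs).2
        have a2 := (mem_filter.1 ht).2
        refine hD1 s a1.1 t a2.1 ?_
        rw [← hp3 s a1.1, ← hp3 t a2.1, a1.2, a2.2])
  choose χ hχ using hχ
  have hsum : ∀ (θ : P → 𝕜) (t : P), (∑ q ∈ Q, θ q • χ q) (bv 𝕜 t) =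
      if t ∈ D then θ (p t) else 0 := fun θ t => by
    rw [_root_.sum_apply]
    simp only [smul_apply, hχ, smul_eq_mul]
    split_ifs with ht
    · rw [sum_eq_single (p t) (fun q _ hq => by rw [if_neg (fun h => hq h.2.symm), mul_zero])
        (fun h => absurd (hQ1 t ht) h), if_pos ⟨ht, rfl⟩, mul_one]
    · exact sum_eq_zero (fun q _ => by rw [if_neg (fun h => ht h.1), mul_zero])
  have hbound : ∀ (g : TX 𝕜 →L[𝕜] 𝕜) (a : P → ℝ) (G' : Finset P), (∀ t ∈ D, lab t ∈ G') →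
      (∀ t, t ∉ D → g (bv 𝕜 t) = 0) → (∀ t ∈ D, ‖g (bv 𝕜 t)‖ ≤ a (lab t)) →
      ‖g‖ ≤ √(∑ i ∈ G', a i ^ 2) := fun g a G' h1 h2 h3 => by
    refine norm_functional_le g (Real.sqrt_nonneg _) (fun x F => ?_)
    refine le_trans ?_ (lab_bound x (F.filter (fun t => t ∈ D)) G' lab
      (fun t ht => h1 t (mem_filter.1 ht).2)
      (fun s hs t ht => hD1 s (mem_filter.1 hs).2 t (mem_filter.1 ht).2) a)
    rw [sum_filter]
    refine sum_le_sum (fun t _ => ?_)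
    split_ifs with ht
    · exact mul_le_mul_of_nonneg_right (h3 t ht) (norm_nonneg _)
    · rw [h2 t ht]; simp
  refine ⟨Q, lab, χ, fun q hq q' hq' => hD2 q (hQ2 q hq) q' (hQ2 q' hq'), fun j hj Φ hΦ => ?_,
    fun θ a ha => ?_⟩
  · have b1 : ‖f j ∘L res Aᶜ‖ ≤ 1 / 8 := hγ2 j hj _ (fun t ht => by
      by_contra h
      exact ht ⟨j, hj, not_lt.1 h⟩)
    obtain ⟨g, hg⟩ : ∃ g : TX 𝕜 →L[𝕜] 𝕜, g = f j - ∑ q ∈ Q, f j (bv 𝕜 q) • χ q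
      - f j ∘L res Aᶜ - ∑ t ∈ F0, f j (bv 𝕜 t) • coord t := ⟨_, rfl⟩
    have hres : ∀ t, res Aᶜ (bv 𝕜 t) = if t ∈ A then 0 else bv 𝕜 t := fun t => by
      refine TX.ext (fun s => ?_)
      rw [res_c]
      by_cases h1 : s = t
      · subst h1
        by_cases h2 : s ∈ A <;> simp [h2]
      · by_cases h2 : t ∈ A <;> simp [h2, bv_c, h1]
    have hgt : ∀ t, g (bv 𝕜 t) = if t ∈ D then f j (bv 𝕜 t) - f j (bv 𝕜 (p t)) else 0 := fun t => by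
      have e1 : (∑ s ∈ F0, f j (bv 𝕜 s) • coord s) (bv 𝕜 t) =
          if t ∈ F0 then f j (bv 𝕜 t) else 0 := by
        rw [_root_.sum_apply]
        simp [bv_c]
      rw [hg, sub_apply, sub_apply, sub_apply, hsum, e1, ContinuousLinearMap.comp_apply, hres]
      by_cases h1 : t ∈ D
      · rw [if_pos h1, if_pos h1, if_pos h1.1, if_neg (fun h => ((hF0 t).1 h).2 h1)]
        simp
      · rw [if_neg h1, if_neg h1]
        by_cases h2 : t ∈ A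
        · rw [if_pos h2, if_pos ((hF0 t).2 ⟨h2, h1⟩)]
          simp
        · rw [if_neg h2, if_neg (fun h => h2 ((hF0 t).1 h).1)]
          simp
    have b2 : ‖g‖ ≤ 1 / 8 := by
      refine (hbound g (fun _ => 2 * η) G (fun t ht => (hlab t ht).1)
        (fun t ht => by rw [hgt, if_neg ht])
        (fun t ht => by rw [hgt, if_pos ht]; exact hp4 t ht j hj)).trans ?_
      rw [Real.sqrt_le_left (by norm_num), sum_const, nsmul_eq_mul, hη]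
      have c0 : (0 : ℝ) ≤ G.card := by positivity
      rw [show (G.card : ℝ) * (2 * (1 / (16 * ((G.card : ℝ) + 1)))) ^ 2 =
        (1 / 8) ^ 2 * (G.card / (G.card + 1) ^ 2) by field_simp; ring]
      refine mul_le_of_le_one_right (by positivity) ?_
      rw [div_le_one (by positivity)]
      nlinarith
    have b3 : Φ (f j) - ∑ q ∈ Q, f j (bv 𝕜 q) * Φ (χ q) = Φ g + Φ (f j ∘L res Aᶜ) := by
      rw [hg]
      simp only [map_sub, map_sum, map_smul, hΦ, smul_eq_mul, mul_zero, sum_const_zero]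
      ring
    rw [b3]
    calc _ ≤ ‖Φ‖ * (1 / 8) + ‖Φ‖ * (1 / 8) := (norm_add_le _ _).trans (add_le_add
          ((Φ.le_opNorm _).trans (by gcongr)) ((Φ.le_opNorm _).trans (by gcongr)))
      _ = _ := by ring
  · refine hbound _ a _ (fun t ht => mem_image.2 ⟨p t, hQ1 t ht, hp3 t ht⟩)
      (fun t ht => by rw [hsum, if_neg ht]) (fun t ht => ?_)
    rw [hsum, if_pos ht, ← hp3 t ht]
    exact ha _ (hQ1 t ht)

theorem cot_core (J : Finset (List ℕ)) (Φ : List ℕ → ((TX 𝕜 →L[𝕜] 𝕜) →L[𝕜] 𝕜))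
    (hΦ : ∀ j t, Φ j (coord t) = 0) :
    2 ^ J.card * ∑ j ∈ J, ‖Φ j‖ ^ 2 ≤ 64 * ∑ s ∈ J.powerset, ‖rad J s Φ‖ ^ 2 := by
  classical
  have hf : ∀ j, ∃ f : TX 𝕜 →L[𝕜] 𝕜, ‖f‖ ≤ 1 ∧ ‖Φ j‖ / 2 ≤ ‖Φ j f‖ := fun j => by
    rcases (norm_nonneg (Φ j)).eq_or_lt with h | h
    · exact ⟨0, by simp, by rw [← h]; simp⟩
    · obtain ⟨f, h1, h2⟩ := (Φ j).exists_lt_apply_of_lt_opNorm (half_lt_self h)
      exact ⟨f, h1.le, h2.le⟩
  choose f hf1 hf2 using hf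
  obtain ⟨Q, lab, χ, h1, h2, h3⟩ := simple J f hf1
  let I := Q.image lab
  let Qi : P → Finset P := fun i => Q.filter (fun q => lab q = i)
  have hfib : ∀ g : P → ℝ, ∑ q ∈ Q, g q = ∑ i ∈ I, ∑ q ∈ Qi i, g q := fun g =>
    (sum_fiberwise_of_maps_to (fun s hs => mem_image_of_mem lab hs) g).symm
  have s1 : ∀ j ∈ J, ‖Φ j‖ ^ 2 ≤ 16 * ∑ i ∈ I, (∑ q ∈ Qi i, ‖Φ j (χ q)‖) ^ 2 := fun j hj => by
    have hr : ∀ i, ∃ r, i ∈ I → r ∈ Qi i ∧ ∀ q ∈ Qi i, ‖f j (bv 𝕜 q)‖ ≤ ‖f j (bv 𝕜 r)‖ :=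
      fun i => by
        by_cases hi : i ∈ I
        · obtain ⟨q, hq, rfl⟩ := mem_image.1 hi
          obtain ⟨r, a1, a2⟩ := exists_max_image (Qi (lab q)) (fun q => ‖f j (bv 𝕜 q)‖)
            ⟨q, mem_filter.2 ⟨hq, rfl⟩⟩
          exact ⟨r, fun _ => ⟨a1, a2⟩⟩
        · exact ⟨i, fun h => absurd h hi⟩
    choose r hr using hr
    have hr2 : ∀ i ∈ I, lab (r i) = i := fun i hi => (mem_filter.1 (hr i hi).1).2
    have a1 : ∑ i ∈ I, ‖f j (bv 𝕜 (r i))‖ ^ 2 ≤ 1 := by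
      have := anti_sum_le (f j) (F := I.image r) (fun s hs t ht hst => by
        obtain ⟨i, hi, rfl⟩ := mem_image.1 hs
        obtain ⟨i', hi', rfl⟩ := mem_image.1 ht
        have := h1 _ (mem_filter.1 (hr i hi).1).1 _ (mem_filter.1 (hr i' hi').1).1 hst
        rw [hr2 i hi, hr2 i' hi'] at this
        rw [this])
      rw [sum_image (fun i hi i' hi' h => by rw [← hr2 i hi, ← hr2 i' hi', h])] at this
      exact this.trans (pow_le_one₀ (norm_nonneg _) (hf1 j))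
    have a2 : ‖∑ q ∈ Q, f j (bv 𝕜 q) * Φ j (χ q)‖ ≤
        ∑ i ∈ I, ‖f j (bv 𝕜 (r i))‖ * ∑ q ∈ Qi i, ‖Φ j (χ q)‖ := by
      refine (norm_sum_le _ _).trans ?_
      rw [hfib]
      refine sum_le_sum (fun i hi => ?_)
      rw [mul_sum]
      refine sum_le_sum (fun q hq => ?_)
      rw [norm_mul]
      exact mul_le_mul_of_nonneg_right ((hr i hi).2 q hq) (norm_nonneg _)
    have a3 := sum_mul_sq_le_sq_mul_sq I (fun i => ‖f j (bv 𝕜 (r i))‖)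
      (fun i => ∑ q ∈ Qi i, ‖Φ j (χ q)‖)
    have a4 : ‖Φ j‖ / 4 ≤ ‖∑ q ∈ Q, f j (bv 𝕜 q) * Φ j (χ q)‖ := by
      have b1 := h2 j hj (Φ j) (hΦ j)
      have b2 := norm_sub_norm_le (Φ j (f j)) (∑ q ∈ Q, f j (bv 𝕜 q) * Φ j (χ q))
      have b3 := hf2 j
      linarith
    have a5 := pow_le_pow_left₀ (by positivity) (a4.trans a2) 2
    have a6 : (∑ i ∈ I, ‖f j (bv 𝕜 (r i))‖ ^ 2) * ∑ i ∈ I, (∑ q ∈ Qi i, ‖Φ j (χ q)‖) ^ 2 ≤
        ∑ i ∈ I, (∑ q ∈ Qi i, ‖Φ j (χ q)‖) ^ 2 :=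
      mul_le_of_le_one_left (by positivity) a1
    nlinarith
  have s2 : ∀ i, ∑ j ∈ J, (∑ q ∈ Qi i, ‖Φ j (χ q)‖) ^ 2 ≤
      (∑ q ∈ Qi i, √(∑ j ∈ J, ‖Φ j (χ q)‖ ^ 2)) ^ 2 := fun i => by
    simp only [sq (∑ q ∈ Qi i, _), sum_mul_sum]
    rw [sum_comm]
    refine sum_le_sum (fun q _ => ?_)
    rw [sum_comm]
    exact sum_le_sum (fun q' _ => Real.sum_mul_le_sqrt_mul_sqrt _ _ _)
  have s3 : ∀ i, 2 ^ J.card * (∑ q ∈ Qi i, √(∑ j ∈ J, ‖Φ j (χ q)‖ ^ 2)) ^ 2 ≤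
      4 * ∑ s ∈ J.powerset, (∑ q ∈ Qi i, ‖rad J s Φ (χ q)‖) ^ 2 := fun i => by
    have a1 : 2 ^ J.card * ∑ q ∈ Qi i, √(∑ j ∈ J, ‖Φ j (χ q)‖ ^ 2) ≤
        2 * ∑ s ∈ J.powerset, ∑ q ∈ Qi i, ‖rad J s Φ (χ q)‖ := by
      rw [sum_comm, mul_sum, mul_sum]
      refine sum_le_sum (fun q _ => (khin J (fun j => Φ j (χ q))).trans (le_of_eq ?_))
      congr 1
      refine sum_congr rfl (fun s _ => ?_)
      exact congrArg norm (map_rad (ContinuousLinearMap.apply 𝕜 𝕜 (χ q)) J s Φ).symm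
    have a2 := sq_sum_le_card_mul_sum_sq (s := J.powerset)
      (f := fun s => ∑ q ∈ Qi i, ‖rad J s Φ (χ q)‖)
    rw [card_powerset] at a2
    push_cast at a2
    have a3 := pow_le_pow_left₀ (by positivity) a1 2
    refine le_of_mul_le_mul_left (a := (2 : ℝ) ^ J.card) ?_ (by positivity)
    nlinarith
  have s4 : ∀ Ψ : (TX 𝕜 →L[𝕜] 𝕜) →L[𝕜] 𝕜, ∑ i ∈ I, (∑ q ∈ Qi i, ‖Ψ (χ q)‖) ^ 2 ≤ ‖Ψ‖ ^ 2 :=
    fun Ψ => by
    choose c hc1 hc2 using fun q => RCLike.exists_norm_eq_mul_self (Ψ (χ q))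
    let v : P → ℝ := fun i => ∑ q ∈ Qi i, ‖Ψ (χ q)‖
    have hv : ∀ i, 0 ≤ v i := fun i => sum_nonneg (fun _ _ => norm_nonneg _)
    have a1 := h3 (fun q => (v (lab q) : 𝕜) * c q) v (fun q _ => by
      rw [norm_mul, hc1, mul_one, RCLike.norm_ofReal, abs_of_nonneg (hv _)])
    set σ := ∑ i ∈ I, v i ^ 2 with hσ
    have hσ0 : 0 ≤ σ := by positivity
    have a2 : Ψ (∑ q ∈ Q, ((v (lab q) : 𝕜) * c q) • χ q) = (σ : 𝕜) := by
      have : σ = ∑ q ∈ Q, v (lab q) * ‖Ψ (χ q)‖ := by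
        rw [hfib, hσ]
        refine sum_congr rfl (fun i _ => ?_)
        rw [sq]
        nth_rewrite 2 [show v i = ∑ q ∈ Qi i, ‖Ψ (χ q)‖ from rfl]
        rw [mul_sum]
        exact sum_congr rfl (fun q hq => by rw [(mem_filter.1 hq).2])
      rw [this, map_sum]
      push_cast
      exact sum_congr rfl (fun q _ => by rw [map_smul, smul_eq_mul, mul_assoc, ← hc2])
    have a3 : σ ≤ ‖Ψ‖ * √σ := by
      have := Ψ.le_opNorm (∑ q ∈ Q, ((v (lab q) : 𝕜) * c q) • χ q)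
      rw [a2, RCLike.norm_ofReal, abs_of_nonneg hσ0] at this
      exact this.trans (by gcongr)
    have a4 := Real.sq_sqrt hσ0
    have a5 := Real.sqrt_nonneg σ
    nlinarith [sq_nonneg (‖Ψ‖ - √σ)]
  calc 2 ^ J.card * ∑ j ∈ J, ‖Φ j‖ ^ 2
      ≤ 2 ^ J.card * ∑ j ∈ J, 16 * ∑ i ∈ I, (∑ q ∈ Qi i, ‖Φ j (χ q)‖) ^ 2 := by
        exact mul_le_mul_of_nonneg_left (sum_le_sum s1) (by positivity)
    _ = 16 * ∑ i ∈ I, 2 ^ J.card * ∑ j ∈ J, (∑ q ∈ Qi i, ‖Φ j (χ q)‖) ^ 2 := by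
        rw [← mul_sum, ← mul_sum, sum_comm]; ring
    _ ≤ 16 * ∑ i ∈ I, 4 * ∑ s ∈ J.powerset, (∑ q ∈ Qi i, ‖rad J s Φ (χ q)‖) ^ 2 := by
        refine mul_le_mul_of_nonneg_left (sum_le_sum (fun i _ => le_trans ?_ (s3 i))) (by norm_num)
        exact mul_le_mul_of_nonneg_left (s2 i) (by positivity)
    _ = 64 * ∑ s ∈ J.powerset, ∑ i ∈ I, (∑ q ∈ Qi i, ‖rad J s Φ (χ q)‖) ^ 2 := by
        rw [← mul_sum, sum_comm]; ring
    _ ≤ _ := mul_le_mul_of_nonneg_left (sum_le_sum (fun s _ => s4 _)) (by norm_num)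

end Pool.Agent.H713Z.Prim
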