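import Mathlib

namespace Pool.Agent.H713Z.Prim

/-- A Banach space `X` is primary if it is infinite dimensional and, whenever `X` is the direct sum
of two closed subspaces `Y` and `Z`, one of `Y`, `Z` is linearly homeomorphic to `X`. -/
def Primary (𝕜 : Type*) [RCLike 𝕜] (X : Type*) [NormedAddCommGroup X] [NormedSpace 𝕜 X] : Prop :=
  ¬ FiniteDimensional 𝕜 X ∧
    ∀ Y Z : Submodule 𝕜 X, IsClosed (Y : Set X) → IsClosed (Z : Set X) → IsCompl Y Z →
      Nonempty (Y ≃L[𝕜] X) ∨ Nonempty (Z ≃L[𝕜] X)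

/-- `V` is the direct sum of two closed subspaces `Y` and `Z`, neither of which is linearly
homeomorphic to `V`. -/
def SplitsBadly (𝕜 : Type*) [RCLike 𝕜] (V : Type*) [NormedAddCommGroup V] [NormedSpace 𝕜 V] :
    Prop :=
  ∃ Y Z : Submodule 𝕜 V, IsClosed (Y : Set V) ∧ IsClosed (Z : Set V) ∧ IsCompl Y Z ∧
    IsEmpty (Y ≃L[𝕜] V) ∧ IsEmpty (Z ≃L[𝕜] V)

end Pool.Agent.H713Z.Prim
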