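import Pool.Agent.H713Z.Prim.Abs
import Pool.Agent.H713Z.Prim.Defs

namespace Pool.Agent.H713Z.Prim

open Finset

variable {𝕜 : Type*} [RCLike 𝕜] {X : Type*} [NormedAddCommGroup X] [NormedSpace 𝕜 X]

theorem exists_limit' (w : ℕ → (X →L[𝕜] 𝕜)) (hw : ∀ n, ‖w n‖ ≤ 1) :
    ∃ Φ : X →L[𝕜] 𝕜, ∀ (f : X) (c : 𝕜), (∀ᶠ n in Filter.atTop, w n f = c) → Φ f = c := by
  let v : ℕ → WeakDual 𝕜 X := fun n => StrongDual.toWeakDual (w n)
  have hc := WeakDual.isCompact_closedBall (𝕜 := 𝕜) (E := X) 0 1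
  obtain ⟨Φ, -, hΦ⟩ := hc.exists_mapClusterPt (f := Filter.atTop) (u := v) (by
    rw [Filter.le_principal_iff, Filter.mem_map]
    refine Filter.Eventually.of_forall (fun n => ?_)
    exact mem_closedBall_zero_iff.2 (hw n))
  refine ⟨WeakDual.toStrongDual Φ, fun f c hf => ?_⟩
  have h1 : MapClusterPt (Φ f) Filter.atTop ((fun Ψ : WeakDual 𝕜 X => Ψ f) ∘ v) :=
    hΦ.continuousAt_comp (WeakDual.eval_continuous f).continuousAt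
  have h2 : Filter.Tendsto ((fun Ψ : WeakDual 𝕜 X => Ψ f) ∘ v) Filter.atTop
      (nhds c) := tendsto_const_nhds.congr' (hf.mono (fun n hn => hn.symm))
  exact eq_of_nhds_neBot (ClusterPt.mono h1 h2)

theorem exists_limit (u : ℕ → X) (hu : ∀ n, ‖u n‖ ≤ 1) :
    ∃ Φ : (X →L[𝕜] 𝕜) →L[𝕜] 𝕜, ∀ (f : X →L[𝕜] 𝕜) (c : 𝕜),
      (∀ᶠ n in Filter.atTop, f (u n) = c) → Φ f = c :=
  exists_limit' (fun n => NormedSpace.inclusionInDoubleDual 𝕜 X (u n))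
    (fun n => (NormedSpace.double_dual_bound 𝕜 X (u n)).trans (hu n))

theorem not_separable_of (Φ : (ℕ → ℕ) → (X →L[𝕜] 𝕜)) (f : (ℕ → ℕ) → X) (hf : ∀ β, ‖f β‖ ≤ 1)
    (h1 : ∀ β, Φ β (f β) = 1) (h2 : ∀ β β', β ≠ β' → Φ β' (f β) = 0) :
    ¬ TopologicalSpace.SeparableSpace (X →L[𝕜] 𝕜) := by
  intro hsep
  have hd : ∀ β β' : ℕ → ℕ, β ≠ β' → 1 ≤ dist (Φ β) (Φ β') := fun β β' hne => by
    have a3 := (Φ β - Φ β').le_opNorm (f β)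
    rw [sub_apply, h1, h2 β β' hne, sub_zero, norm_one] at a3
    rw [dist_eq_norm]
    exact a3.trans (mul_le_of_le_one_right (norm_nonneg _) (hf β))
  have hc : Countable (ℕ → ℕ) :=
    Pairwise.countable_of_isOpen_disjoint (s := fun β : ℕ → ℕ => Metric.ball (Φ β) (1 / 2))
      (fun β β' h => Metric.ball_disjoint_ball (by linarith [hd β β' h]))
      (fun _ => Metric.isOpen_ball) (fun _ => Metric.nonempty_ball.2 (by norm_num))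
  obtain ⟨g, hg⟩ := exists_surjective_nat (ℕ → ℕ)
  obtain ⟨n, hn⟩ := hg (fun n => g n n + 1)
  have := congrFun hn n
  simp at this

theorem split_of {D : Type*} [NormedAddCommGroup D] [NormedSpace 𝕜 D] (κ : X →L[𝕜] D)
    (hκ : ∀ x, ‖κ x‖ = ‖x‖) (π : D →L[𝕜] X) (hπ : ∀ x, π (κ x) = x)
    (h1 : TopologicalSpace.SeparableSpace X) (h2 : ¬ TopologicalSpace.SeparableSpace D)
    (h3 : ¬ Cot X)
    (h4 : ∀ (J : Finset (List ℕ)) (Φ : List ℕ → D), (∀ j, π (Φ j) = 0) →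
      2 ^ J.card * ∑ j ∈ J, ‖Φ j‖ ^ 2 ≤ 64 * ∑ s ∈ J.powerset, ‖rad J s Φ‖ ^ 2) :
    ∃ Y Z : Submodule 𝕜 D, IsClosed (Y : Set D) ∧ IsClosed (Z : Set D) ∧
      IsCompl Y Z ∧ IsEmpty (Y ≃L[𝕜] D) ∧ IsEmpty (Z ≃L[𝕜] D) := by
  obtain ⟨R, hR⟩ : ∃ R : D →L[𝕜] D, ∀ Φ, R Φ = Φ - κ (π Φ) := ⟨1 - κ ∘L π, fun _ => rfl⟩
  have hY : ∀ Φ, Φ ∈ R.ker ↔ Φ = κ (π Φ) := fun Φ => by
    rw [LinearMap.mem_ker, ContinuousLinearMap.coe_coe, hR, sub_eq_zero]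
  have hZ : ∀ Φ, Φ ∈ π.ker ↔ π Φ = 0 := fun Φ => Iff.rfl
  have hκY : ∀ x, κ x ∈ R.ker := fun x => (hY _).2 (by rw [hπ])
  refine ⟨R.ker, π.ker, R.isClosed_ker, π.isClosed_ker, ⟨?_, ?_⟩, ⟨fun e => ?_⟩, ⟨fun e => ?_⟩⟩
  · rw [Submodule.disjoint_def]
    intro Φ h1 h2
    rw [(hY _).1 h1, (hZ _).1 h2, map_zero]
  · rw [codisjoint_iff, eq_top_iff]
    intro Φ _
    refine Submodule.mem_sup.2 ⟨κ (π Φ), hκY _, Φ - κ (π Φ), (hZ _).2 ?_, by abel⟩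
    rw [map_sub, hπ, sub_self]
  · refine h2 (DenseRange.separableSpace
      (f := fun x => e (κ.codRestrict R.ker hκY x)) (Function.Surjective.denseRange (fun Φ => ?_))
      (e.continuous.comp (κ.codRestrict R.ker hκY).continuous))
    refine ⟨π (e.symm Φ).1, ?_⟩
    have : κ.codRestrict R.ker hκY (π (e.symm Φ).1) = e.symm Φ :=
      Subtype.ext ((hY _).1 (e.symm Φ).2).symm
    show e (κ.codRestrict R.ker hκY (π (e.symm Φ).1)) = Φ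
    rw [this, e.apply_symm_apply]
  · have h5 : Cot π.ker := ⟨64, by norm_num, fun J x => by
      have := h4 J (fun j => (x j).1) (fun j => (hZ _).1 (x j).2)
      refine this.trans (le_of_eq ?_)
      congr 1
      refine sum_congr rfl (fun s _ => ?_)
      have := map_rad π.ker.subtype J s x
      exact congrArg (fun v : D => ‖v‖ ^ 2) this.symm⟩
    refine h3 (h5.of_embed ((e.symm : D →L[𝕜] π.ker) ∘L κ) ‖(e : π.ker →L[𝕜] D)‖ (fun v => ?_))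
    have := (e : π.ker →L[𝕜] D).le_opNorm (e.symm (κ v))
    rw [ContinuousLinearEquiv.coe_coe, e.apply_symm_apply, hκ] at this
    exact this

theorem dual_not_fin (h : ¬ TopologicalSpace.SeparableSpace ((X →L[𝕜] 𝕜) →L[𝕜] 𝕜)) :
    ¬ FiniteDimensional 𝕜 (X →L[𝕜] 𝕜) := fun _ =>
  haveI := FiniteDimensional.proper_rclike 𝕜 ((X →L[𝕜] 𝕜) →L[𝕜] 𝕜)
  h inferInstance

universe u

theorem main_of (𝕜 : Type u) [RCLike 𝕜] (X : Type u) [NormedAddCommGroup X] [NormedSpace 𝕜 X]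
    [CompleteSpace X]
    (hdec : ∀ Y Z : Submodule 𝕜 X, IsClosed (Y : Set X) → IsClosed (Z : Set X) → IsCompl Y Z →
      Nonempty (Y ≃L[𝕜] X) ∨ Nonempty (Z ≃L[𝕜] X))
    (π : ((X →L[𝕜] 𝕜) →L[𝕜] 𝕜) →L[𝕜] X)
    (hπ : ∀ x, π (NormedSpace.inclusionInDoubleDual 𝕜 X x) = x)
    (h1 : TopologicalSpace.SeparableSpace X)
    (h2 : ¬ TopologicalSpace.SeparableSpace ((X →L[𝕜] 𝕜) →L[𝕜] 𝕜))
    (h3 : ¬ Cot X)
    (h4 : ∀ (J : Finset (List ℕ)) (Φ : List ℕ → ((X →L[𝕜] 𝕜) →L[𝕜] 𝕜)), (∀ j, π (Φ j) = 0) →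
      2 ^ J.card * ∑ j ∈ J, ‖Φ j‖ ^ 2 ≤ 64 * ∑ s ∈ J.powerset, ‖rad J s Φ‖ ^ 2) :
    ∃ (X : Type u) (_ : NormedAddCommGroup X) (_ : NormedSpace 𝕜 X) (_ : CompleteSpace X),
      Primary 𝕜 X ∧ ∃ Y Z : Submodule 𝕜 (StrongDual 𝕜 X),
        IsClosed (Y : Set (StrongDual 𝕜 X)) ∧ IsClosed (Z : Set (StrongDual 𝕜 X)) ∧ IsCompl Y Z ∧
        IsEmpty (Y ≃L[𝕜] StrongDual 𝕜 X) ∧ IsEmpty (Z ≃L[𝕜] StrongDual 𝕜 X) := by
  by_cases h : Primary 𝕜 (X →L[𝕜] 𝕜)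
  · exact ⟨X →L[𝕜] 𝕜, inferInstance, inferInstance, inferInstance, h,
      split_of (NormedSpace.inclusionInDoubleDual 𝕜 X)
        (fun x => (NormedSpace.inclusionInDoubleDualLi 𝕜 (E := X)).norm_map x) π hπ h1 h2 h3 h4⟩
  · refine ⟨X, inferInstance, inferInstance, inferInstance,
      ⟨fun _ => dual_not_fin h2 inferInstance, hdec⟩, ?_⟩
    by_contra hcon
    refine h ⟨dual_not_fin h2, fun Y Z hY hZ hc => ?_⟩
    by_contra h2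
    rw [not_or, not_nonempty_iff, not_nonempty_iff] at h2
    exact hcon ⟨Y, Z, hY, hZ, hc, h2.1, h2.2⟩

end Pool.Agent.H713Z.Prim
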