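import Pool.Agent.H713Z.Prim.NoCot

namespace Pool.Agent.H713Z.Prim

open Finset

variable {𝕜 : Type*} [RCLike 𝕜]

theorem heavy (x : TX 𝕜) (F : Finset P) {δ : ℝ} (hδ : 0 < δ) :
    ∃ H : Finset P, δ * ∑ t ∈ H, ‖x.c t‖ ≤ ‖x‖ ^ 2 ∧ ∀ C : Finset P, C ⊆ F \ H →
      (∀ s ∈ C, ∀ t ∈ C, cmp s t) → ∑ t ∈ C, ‖x.c t‖ ≤ δ := by
  classical
  obtain ⟨H, hH, hmax⟩ := exists_max_image (F.powerset.filter (fun H => ∃ E, Adm H E ∧
    δ * ∑ t ∈ H, ‖x.c t‖ ≤ val H E x.c)) card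
    ⟨∅, mem_filter.2 ⟨empty_mem_powerset _, ⊥, adm_bot _, by simp [val, bil]⟩⟩
  obtain ⟨hHF, E, hE, hv⟩ := mem_filter.1 hH
  refine ⟨H, hv.trans (x.val_le hE), fun C hC hch => ?_⟩
  by_contra hlt
  push Not at hlt
  have hd : Disjoint H C := disjoint_left.2 (fun t ht ht' => (mem_sdiff.1 (hC ht')).2 ht)
  obtain ⟨E', h1, h2⟩ := bil_union hE (show Adm C ⊤ from fun s hs t ht _ => hch s hs t ht) hd
  have hne : C.Nonempty := by
    rw [nonempty_iff_ne_empty]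
    rintro rfl
    simp only [sum_empty] at hlt
    linarith
  have h3 := hmax (H ∪ C) (mem_filter.2 ⟨mem_powerset.2 (union_subset (mem_powerset.1 hHF)
    (hC.trans sdiff_subset)), E', h1, by
      rw [val, h2, bil_top, sum_union hd, mul_add]
      refine add_le_add hv ?_
      rw [sq]
      exact mul_le_mul_of_nonneg_right hlt.le (hδ.le.trans hlt.le)⟩)
  rw [card_union_of_disjoint hd] at h3
  have := hne.card_pos
  omega

theorem cross (y z : TX 𝕜) {L δ : ℝ} (hδ : 0 ≤ δ) (hy : ∀ F : Finset P, ∑ t ∈ F, ‖y.c t‖ ≤ L)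
    (hz : ∀ C : Finset P, (∀ s ∈ C, ∀ t ∈ C, cmp s t) → ∑ t ∈ C, ‖z.c t‖ ≤ δ) :
    ‖y + z‖ ^ 2 ≤ ‖y‖ ^ 2 + 2 * (L * δ) + ‖z‖ ^ 2 := by
  classical
  refine TX.sq_le _ (fun F E h => ?_)
  have h1 : val F E (y + z).c ≤
      bil F E (fun t => ‖y.c t‖ + ‖z.c t‖) (fun t => ‖y.c t‖ + ‖z.c t‖) :=
    bil_mono F E (fun _ _ => norm_nonneg _) (fun t _ => norm_add_le _ _)
  rw [bil_add] at h1
  have h2 := y.val_le h
  have h3 := z.val_le h
  have h4 : bil F E (fun t => ‖y.c t‖) (fun t => ‖z.c t‖) ≤ L * δ := by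
    calc _ ≤ ∑ s ∈ F, ‖y.c s‖ * δ := by
          unfold bil
          refine sum_le_sum (fun s _ => ?_)
          rw [← sum_filter, ← mul_sum]
          refine mul_le_mul_of_nonneg_left (hz _ (fun t ht u hu => ?_)) (norm_nonneg _)
          exact h t (mem_filter.1 ht).1 u (mem_filter.1 hu).1
            (E.trans (E.symm (mem_filter.1 ht).2) (mem_filter.1 hu).2)
      _ = (∑ s ∈ F, ‖y.c s‖) * δ := by rw [sum_mul]
      _ ≤ _ := mul_le_mul_of_nonneg_right (hy F) hδ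
  unfold val at *
  linarith

theorem norm_apply_res_le (f : TX 𝕜 →L[𝕜] 𝕜) (H : Finset P) (w : TX 𝕜) :
    ‖f (res (H : Set P) w)‖ ≤ ∑ t ∈ H, ‖w.c t‖ * ‖f (bv 𝕜 t)‖ := by
  rw [res_finset, map_sum]
  refine (norm_sum_le _ _).trans (sum_le_sum (fun t _ => ?_))
  rw [map_smul, smul_eq_mul, norm_mul]

theorem lemA (f : TX 𝕜 →L[𝕜] 𝕜) {ε : ℝ} (hε : 0 < ε) :
    ∃ γ : ℝ, 0 < γ ∧ ‖f ∘L res {t | ‖f (bv 𝕜 t)‖ < γ}‖ ≤ ε := by
  classical
  by_contra hcon
  push Not at hcon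
  have step : ∀ δ : ℝ, 0 < δ → ∃ z : TX 𝕜, (∃ L : ℝ, ∀ F : Finset P, ∑ t ∈ F, ‖z.c t‖ ≤ L) ∧
      ‖z‖ ≤ 1 ∧ (∀ C : Finset P, (∀ s ∈ C, ∀ t ∈ C, cmp s t) → ∑ t ∈ C, ‖z.c t‖ ≤ δ) ∧
      ε / 2 ≤ RCLike.re (f z) := by
    intro δ hδ
    set γ := ε * δ / 2 with hγ
    have hγ0 : 0 < γ := by positivity
    set A : Set P := {t | ‖f (bv 𝕜 t)‖ < γ} with hA
    obtain ⟨x, F, hx⟩ : ∃ (x : TX 𝕜) (F : Finset P),
        ε * ‖x‖ < ‖(f ∘L res A) (res (F : Set P) x)‖ := by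
      by_contra hh
      push Not at hh
      exact absurd (opNorm_le_of_finset _ hε.le hh) (not_le.2 (hcon γ hγ0))
    have hx0 : 0 < ‖x‖ := by
      rcases (norm_nonneg x).eq_or_lt with h | h
      · rw [norm_eq_zero.1 h.symm] at hx
        simp at hx
      · exact h
    obtain ⟨w, hw⟩ : ∃ w : TX 𝕜, w = ((‖x‖⁻¹ : ℝ) : 𝕜) • res A (res (F : Set P) x) := ⟨_, rfl⟩
    have hw1 : ‖w‖ ≤ 1 := by
      rw [hw, norm_smul, RCLike.norm_ofReal, abs_of_pos (inv_pos.2 hx0), inv_mul_le_iff₀ hx0,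
        mul_one]
      exact (norm_res_le _ _).trans (norm_res_le _ _)
    have hw2 : ε < ‖f w‖ := by
      rw [hw, map_smul, norm_smul, RCLike.norm_ofReal, abs_of_pos (inv_pos.2 hx0),
        lt_inv_mul_iff₀ hx0, mul_comm]
      exact hx
    have hw3 : ∀ t, t ∉ A → w.c t = 0 := fun t ht => by
      rw [hw, TX.smul_c, Pi.smul_apply, res_c_notMem _ ht, smul_zero]
    have hw4 : ∀ t, t ∉ F → w.c t = 0 := fun t ht => by
      have := res_c_le A (res (F : Set P) x) t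
      rw [res_c_notMem (A := (F : Set P)) x (fun h => ht (mem_coe.1 h)), norm_zero,
        norm_le_zero_iff] at this
      rw [hw, TX.smul_c, Pi.smul_apply, this, smul_zero]
    obtain ⟨H, hH1, hH2⟩ := heavy w F hδ
    have hH3 : ‖f (res (H : Set P) w)‖ ≤ ε / 2 := by
      refine (norm_apply_res_le f H w).trans ?_
      calc ∑ t ∈ H, ‖w.c t‖ * ‖f (bv 𝕜 t)‖ ≤ ∑ t ∈ H, ‖w.c t‖ * γ := by
            refine sum_le_sum (fun t _ => ?_)
            by_cases ht : t ∈ A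
            · exact mul_le_mul_of_nonneg_left (le_of_lt ht) (norm_nonneg _)
            · rw [hw3 t ht]; simp
        _ = ε / 2 * (δ * ∑ t ∈ H, ‖w.c t‖) := by rw [← sum_mul, hγ]; ring
        _ ≤ ε / 2 * 1 := by
            gcongr
            exact hH1.trans (pow_le_one₀ (norm_nonneg _) hw1)
        _ = _ := mul_one _
    have hH4 : ε / 2 ≤ ‖f (res (H : Set P)ᶜ w)‖ := by
      have := norm_add_le (f (res (H : Set P) w)) (f (res (H : Set P)ᶜ w))
      rw [← map_add, res_add_compl] at this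
      linarith
    obtain ⟨c, hc1, hc2⟩ := RCLike.exists_norm_eq_mul_self (f (res (H : Set P)ᶜ w))
    have hzc : ∀ t, ‖(c • res (H : Set P)ᶜ w).c t‖ = ‖(res (H : Set P)ᶜ w).c t‖ := fun t => by
      rw [TX.smul_c, Pi.smul_apply, norm_smul, hc1, one_mul]
    have hsub : ∀ G : Finset P, ∑ t ∈ G, ‖(c • res (H : Set P)ᶜ w).c t‖ =
        ∑ t ∈ G.filter (fun t => t ∈ F \ H), ‖w.c t‖ := fun G => by
      rw [sum_filter]
      refine sum_congr rfl (fun t _ => ?_)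
      rw [hzc]
      by_cases h1 : t ∈ H
      · rw [res_c_notMem (A := (H : Set P)ᶜ) _ (fun h => h (mem_coe.2 h1)), norm_zero,
          if_neg (fun h => (mem_sdiff.1 h).2 h1)]
      · rw [res_c_mem (A := (H : Set P)ᶜ) _ (fun h => h1 (mem_coe.1 h))]
        split_ifs with h2
        · rfl
        · rw [hw4 t (fun h => h2 (mem_sdiff.2 ⟨h, h1⟩)), norm_zero]
    refine ⟨c • res (H : Set P)ᶜ w, ⟨∑ t ∈ F \ H, ‖w.c t‖, fun G => ?_⟩, ?_, fun C hC => ?_, ?_⟩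
    · rw [hsub]
      exact sum_le_sum_of_subset_of_nonneg (fun t ht => (mem_filter.1 ht).2)
        (fun _ _ _ => norm_nonneg _)
    · rw [norm_smul, hc1, one_mul]
      exact (norm_res_le _ _).trans hw1
    · rw [hsub]
      exact hH2 _ (fun t ht => (mem_filter.1 ht).2)
        (fun s hs t ht => hC s (mem_filter.1 hs).1 t (mem_filter.1 ht).1)
    · rw [map_smul, smul_eq_mul, ← hc2, RCLike.ofReal_re]
      exact hH4
  have iter : ∀ N : ℕ, ∃ y : TX 𝕜, (∃ L : ℝ, ∀ F : Finset P, ∑ t ∈ F, ‖y.c t‖ ≤ L) ∧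
      ‖y‖ ^ 2 ≤ 2 * N ∧ N * (ε / 2) ≤ RCLike.re (f y) := by
    intro N
    induction N with
    | zero => exact ⟨0, ⟨0, fun F => by simp⟩, by simp, by simp⟩
    | succ N ih =>
      obtain ⟨y, ⟨L, hL⟩, h1, h2⟩ := ih
      have hL0 : 0 ≤ L := by simpa using hL ∅
      obtain ⟨z, ⟨L', hL'⟩, h3, h4, h5⟩ := step (1 / (2 * (L + 1))) (by positivity)
      refine ⟨y + z, ⟨L + L', fun F => ?_⟩, ?_, ?_⟩
      · refine le_trans ?_ (add_le_add (hL F) (hL' F))
        rw [← sum_add_distrib]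
        exact sum_le_sum (fun t _ => norm_add_le _ _)
      · have a1 := cross y z (by positivity) hL h4
        have a2 : ‖z‖ ^ 2 ≤ 1 := pow_le_one₀ (norm_nonneg _) h3
        have a3 : 2 * (L * (1 / (2 * (L + 1)))) ≤ 1 := by
          rw [show 2 * (L * (1 / (2 * (L + 1)))) = L / (L + 1) by field_simp,
            div_le_one (by positivity)]
          linarith
        push_cast
        linarith
      · rw [map_add, map_add]
        push_cast
        linarith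
  obtain ⟨N, hN⟩ := exists_nat_gt (8 * ‖f‖ ^ 2 / ε ^ 2)
  obtain ⟨y, -, h1, h2⟩ := iter N
  have hN0 : (0 : ℝ) < N := lt_of_le_of_lt (by positivity) hN
  rw [div_lt_iff₀ (by positivity)] at hN
  have h3 : N * (ε / 2) ≤ ‖f‖ * ‖y‖ := h2.trans ((RCLike.re_le_norm _).trans (f.le_opNorm y))
  have h4 : (N * (ε / 2)) ^ 2 ≤ ‖f‖ ^ 2 * (2 * N) := by
    calc _ ≤ (‖f‖ * ‖y‖) ^ 2 := pow_le_pow_left₀ (by positivity) h3 2
      _ = ‖f‖ ^ 2 * ‖y‖ ^ 2 := by ring
      _ ≤ _ := by gcongr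
  nlinarith

theorem exists_max_anti (A : Set P) (M : ℕ) (hM : ∀ G : Finset P, (∀ t ∈ G, t ∈ A) →
      (∀ s ∈ G, ∀ t ∈ G, cmp s t → s = t) → G.card ≤ M) :
    ∃ G : Finset P, (∀ s ∈ G, ∀ t ∈ G, cmp s t → s = t) ∧ (∀ t ∈ A, ∃ a ∈ G, cmp a t) ∧
      ∀ a ∈ G, ∀ s ∈ A, ∀ t ∈ A, ple a s → ple a t → cmp s t := by
  classical
  let S : Set ℕ := {k | ∃ G : Finset P, (∀ t ∈ G, t ∈ A) ∧
    (∀ s ∈ G, ∀ t ∈ G, cmp s t → s = t) ∧ G.card = k}
  have hb : BddAbove S := ⟨M, by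
    rintro k ⟨G, h1, h2, rfl⟩
    exact hM G h1 h2⟩
  obtain ⟨G, h1, h2, h3⟩ := Nat.sSup_mem (s := S) ⟨0, ∅, by simp, by simp, rfl⟩ hb
  have hmax : ∀ G' : Finset P, (∀ t ∈ G', t ∈ A) → (∀ s ∈ G', ∀ t ∈ G', cmp s t → s = t) →
      G'.card ≤ G.card := fun G' a1 a2 => h3 ▸ le_csSup hb ⟨G', a1, a2, rfl⟩
  have hins : ∀ (G' : Finset P) (u : P), (∀ s ∈ G', ∀ t ∈ G', cmp s t → s = t) →
      (∀ a ∈ G', ¬ cmp a u) → ∀ s ∈ insert u G', ∀ t ∈ insert u G', cmp s t → s = t := by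
    intro G' u a1 a2 s hs t ht hst
    rcases mem_insert.1 hs with rfl | hs' <;> rcases mem_insert.1 ht with rfl | ht'
    · rfl
    · exact absurd (cmp_symm hst) (a2 t ht')
    · exact absurd hst (a2 s hs')
    · exact a1 s hs' t ht' hst
  refine ⟨G, h2, fun t ht => ?_, fun a ha s hs t ht has hat => ?_⟩
  · by_contra hcon
    push Not at hcon
    have := hmax (insert t G) (fun u hu => by
      rcases mem_insert.1 hu with rfl | hu
      · exact ht
      · exact h1 u hu) (hins G t h2 hcon)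
    rw [card_insert_of_notMem (fun h => hcon t h (cmp_refl t))] at this
    omega
  · by_contra hcon
    have key : ∀ u, ple a u → ∀ b ∈ G.erase a, ¬ cmp b u := fun u hu b hb hbu => by
      refine (mem_erase.1 hb).1 (h2 b (mem_erase.1 hb).2 a ha ?_)
      rcases hbu with h | h
      · exact cmp_of_ple h hu
      · exact Or.inr (ple_trans hu h)
    have key2 : ∀ b ∈ insert t (G.erase a), ¬ cmp b s := fun b hb => by
      rcases mem_insert.1 hb with rfl | hb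
      · exact fun h => hcon (cmp_symm h)
      · exact key s has b hb
    have := hmax (insert s (insert t (G.erase a))) (fun u hu => by
      rcases mem_insert.1 hu with rfl | hu
      · exact hs
      · rcases mem_insert.1 hu with rfl | hu
        · exact ht
        · exact h1 u (mem_erase.1 hu).2)
      (hins _ s (hins _ t (fun s hs t ht => h2 s (mem_erase.1 hs).2 t (mem_erase.1 ht).2)
        (key t hat)) key2)
    rw [card_insert_of_notMem (fun h => key2 s h (cmp_refl s)),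
      card_insert_of_notMem (fun h => key t hat t h (cmp_refl t)), card_erase_of_mem ha] at this
    have := card_pos.2 ⟨a, ha⟩
    omega

theorem lab_bound (x : TX 𝕜) (F G : Finset P) (lab : P → P) (hG : ∀ t ∈ F, lab t ∈ G)
    (hc : ∀ s ∈ F, ∀ t ∈ F, lab s = lab t → cmp s t) (a : P → ℝ) :
    ∑ t ∈ F, a (lab t) * ‖x.c t‖ ≤ √(∑ i ∈ G, a i ^ 2) * ‖x‖ := by
  have h1 : ∑ t ∈ F, a (lab t) * ‖x.c t‖ =
      ∑ i ∈ F.image lab, a i * ∑ t ∈ F.filter (fun t => lab t = i), ‖x.c t‖ := by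
    rw [← sum_fiberwise_of_maps_to (g := lab) (t := F.image lab)
      (fun s hs => mem_image_of_mem lab hs)]
    refine sum_congr rfl (fun i _ => ?_)
    rw [mul_sum]
    exact sum_congr rfl (fun t ht => by rw [(mem_filter.1 ht).2])
  have h2 := x.sqrt_val_le (F := F) (E := Setoid.ker lab) hc
  rw [val, bil_ker] at h2
  simp only [← sq] at h2
  rw [h1]
  refine (Real.sum_mul_le_sqrt_mul_sqrt _ _ _).trans
    (mul_le_mul (Real.sqrt_le_sqrt ?_) h2 (Real.sqrt_nonneg _) (Real.sqrt_nonneg _))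
  refine sum_le_sum_of_subset_of_nonneg (fun i hi => ?_) (fun _ _ _ => sq_nonneg _)
  obtain ⟨t, ht, rfl⟩ := mem_image.1 hi
  exact hG t ht

end Pool.Agent.H713Z.Prim
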