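import Pool.Agent.H713Z.Prim.Ops
import Pool.Agent.H713Z.Prim.Abs

namespace Pool.Agent.H713Z.Prim

open Finset

variable {𝕜 : Type*} [RCLike 𝕜]

/-- the `n`-th copy of the forest inside itself -/
def io (n : ℕ) (t : P) : P := (Nat.pair n t.1, t.2)

theorem io_inj (n : ℕ) : Function.Injective (io n) := fun s t h => by
  simp only [io, Prod.mk.injEq, Nat.pair_eq_pair, true_and] at h
  exact Prod.ext h.1 h.2

theorem io_ple (n : ℕ) (s t : P) : ple (io n s) (io n t) ↔ ple s t := by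
  simp [io, ple]

theorem io_cmp (n : ℕ) (s t : P) : cmp (io n s) (io n t) ↔ cmp s t := by
  simp [cmp, io_ple]

theorem io_eta (t : P) : io (Nat.unpair t.1).1 ((Nat.unpair t.1).2, t.2) = t := by
  simp [io]

/-- coordinate maps -/
noncomputable def VV (n : ℕ) : TX 𝕜 →L[𝕜] TX 𝕜 :=
  pull (io n) (io_inj n) (fun s t h => (io_cmp n s t).2 h)

theorem bil_fiber (F : Finset P) (E : Setoid P) (a : P → ℝ) (g : P → ℕ) (N : ℕ)
    (hN : ∀ t ∈ F, g t < N) (hg : ∀ s ∈ F, ∀ t ∈ F, E s t → g s = g t) :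
    bil F E a a = ∑ n ∈ range N, bil (F.filter (fun t => g t = n)) E a a := by
  classical
  unfold bil
  rw [← sum_fiberwise_of_maps_to (g := g) (t := range N) (fun s hs => mem_range.2 (hN s hs))]
  refine sum_congr rfl (fun n _ => sum_congr rfl (fun s hs => ?_))
  refine (sum_subset (filter_subset _ _) (fun t ht ht' => if_neg (fun hE => ht' ?_))).symm
  exact mem_filter.2 ⟨ht, (hg s (mem_filter.1 hs).1 t ht hE).symm.trans (mem_filter.1 hs).2⟩

theorem sum_res_le (N : ℕ) : ∀ x : TX 𝕜,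
    ∑ n ∈ range N, ‖res {t : P | (Nat.unpair t.1).1 = n} x‖ ^ 2 ≤ ‖x‖ ^ 2 := by
  induction N with
  | zero => intro x; simp
  | succ N ih =>
    intro x
    rw [sum_range_succ]
    have h1 := ih (res {t : P | (Nat.unpair t.1).1 = N}ᶜ x)
    have h2 := res_lower x {t : P | (Nat.unpair t.1).1 = N}
    have h3 : ∀ n ∈ range N, ‖res {t : P | (Nat.unpair t.1).1 = n}
        (res {t : P | (Nat.unpair t.1).1 = N}ᶜ x)‖ ^ 2 =
        ‖res {t : P | (Nat.unpair t.1).1 = n} x‖ ^ 2 := fun n hn => by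
      congr 2
      refine TX.ext (fun t => ?_)
      by_cases h : (Nat.unpair t.1).1 = n
      · have := mem_range.1 hn
        have h' : (Nat.unpair t.1).1 ≠ N := by omega
        rw [res_c_mem (A := {t : P | (Nat.unpair t.1).1 = n}) _ h,
          res_c_mem (A := {t : P | (Nat.unpair t.1).1 = n}) _ h,
          res_c_mem (A := {t : P | (Nat.unpair t.1).1 = N}ᶜ) _ h']
      · rw [res_c_notMem (A := {t : P | (Nat.unpair t.1).1 = n}) _ h,
          res_c_notMem (A := {t : P | (Nat.unpair t.1).1 = n}) _ h]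
    rw [sum_congr rfl h3] at h1
    linarith

theorem l2stable : L2Stable (VV (𝕜 := 𝕜)) where
  ext x h := TX.ext (fun t => by
    have := congrArg (fun y : TX 𝕜 => y.c ((Nat.unpair t.1).2, t.2)) (h (Nat.unpair t.1).1)
    simpa [VV, io_eta] using this)
  low x N := by
    refine le_trans (sum_le_sum (fun n _ => ?_)) (sum_res_le N x)
    refine pow_le_pow_left₀ (norm_nonneg _) ?_ 2
    have : VV n x = VV n (res {t : P | (Nat.unpair t.1).1 = n} x) := TX.ext (fun t => by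
      simp only [VV, pull_c]
      rw [res_c_mem]
      simp [io])
    rw [this]
    exact norm_pull_le _ _ _ _
  asm z M hM := by
    let y : P → 𝕜 := fun t => (z (Nat.unpair t.1).1).c ((Nat.unpair t.1).2, t.2)
    have hy : ∀ n t, y (io n t) = (z n).c t := fun n t => by simp [y, io]
    have key : ∀ F E, Adm F E → val F E y ≤ M := fun F E h => by
      let N := F.sup (fun t => (Nat.unpair t.1).1) + 1
      refine le_trans ?_ (hM N)
      rw [val, bil_fiber F E _ (fun t => (Nat.unpair t.1).1) N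
        (fun t ht => Nat.lt_succ_of_le (le_sup (f := fun t : P => (Nat.unpair t.1).1) ht))
        (fun s hs t ht hE => by
          rcases h s hs t ht hE with h | h
          · rw [h.1]
          · rw [h.1])]
      refine sum_le_sum (fun n _ => ?_)
      have h1 := val_preimage (io_inj n) (F.filter (fun t => (Nat.unpair t.1).1 = n)) E y
        (fun t ht ht' => absurd ⟨_, by rw [← (mem_filter.1 ht).2]; exact io_eta t⟩ ht')
      rw [val] at h1
      rw [h1]
      simp only [hy]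
      refine (z n).val_le (fun s hs t ht hE => (io_cmp n s t).1 ?_)
      exact h _ (mem_filter.1 (mem_preimage.1 hs)).1 _ (mem_filter.1 (mem_preimage.1 ht)).1 hE
    exact ⟨TX.mk y ⟨M, key⟩, fun n => TX.ext (fun t => hy n t), TX.sq_le _ key⟩

theorem eventually_small {a : ℕ → ℝ} {C : ℝ} (h : ∀ F : Finset ℕ, ∑ k ∈ F, a k ^ 2 ≤ C)
    {ε : ℝ} (hε : 0 < ε) : ∀ᶠ k in Filter.atTop, a k ≤ ε := by
  have hs : Summable (fun k => a k ^ 2) := summable_of_sum_le (fun _ => sq_nonneg _) h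
  have := hs.tendsto_atTop_zero.eventually (gt_mem_nhds (pow_pos hε 2))
  exact this.mono (fun k hk => by nlinarith)

theorem exists_next (S : TX 𝕜 →L[𝕜] TX 𝕜) (r : P)
    (hr : ∀ v, ple r v → ∃ u, ple v u ∧ 1 / 2 ≤ ‖(S (bv 𝕜 u)).c u‖) (v : List ℕ)
    (G : Finset P) {ε : ℝ} (hε : 0 < ε) : ∃ u : List ℕ, r.2 <:+ v → (v <:+ u ∧
      1 / 2 ≤ ‖(S (bv 𝕜 (r.1, u))).c (r.1, u)‖ ∧ ∀ g ∈ G,
        ‖(S (bv 𝕜 g)).c (r.1, u)‖ ≤ ε ∧ ‖(S (bv 𝕜 (r.1, u))).c g‖ ≤ ε) := by
  by_cases hv : r.2 <:+ v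
  swap
  · exact ⟨[], fun h => absurd h hv⟩
  choose u hu hu2 using fun k : ℕ => hr (r.1, k :: v) ⟨rfl, hv.trans (List.suffix_cons k v)⟩
  have hanti : ∀ k l, cmp (u k) (u l) → k = l := fun k l h => by
    have h1 : cmp (r.1, k :: v) (r.1, l :: v) := by
      rcases h with h | h
      · exact cmp_of_ple (ple_trans (hu k) h) (hu l)
      · exact cmp_of_ple (hu k) (ple_trans (hu l) h)
    have := eq_of_cmp_of_length h1 rfl
    simpa using this
  have hinj : Function.Injective u := fun k l h => hanti k l (h ▸ cmp_refl _)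
  have h1 : ∀ g : P, ∀ᶠ k in Filter.atTop, ‖(S (bv 𝕜 g)).c (u k)‖ ≤ ε := fun g => by
    refine eventually_small (C := ‖S (bv 𝕜 g)‖ ^ 2) (fun F => ?_) hε
    have := (S (bv 𝕜 g)).sum_sq_le (F.image u)
    rwa [sum_image (fun k _ l _ h => hinj h)] at this
  have h2 : ∀ g : P, ∀ᶠ k in Filter.atTop, ‖(S (bv 𝕜 (u k))).c g‖ ≤ ε := fun g => by
    refine eventually_small (C := ‖coord g ∘L S‖ ^ 2) (fun F => ?_) hε
    have := anti_sum_le (coord g ∘L S) (F := F.image u) (fun s hs t ht h => by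
      obtain ⟨k, _, rfl⟩ := mem_image.1 hs
      obtain ⟨l, _, rfl⟩ := mem_image.1 ht
      rw [hanti k l h])
    rwa [sum_image (fun k _ l _ h => hinj h)] at this
  obtain ⟨k, hk⟩ := ((Filter.eventually_all_finset G).2 (fun g _ => (h1 g).and (h2 g))).exists
  have hk1 : (r.1, (u k).2) = u k := Prod.ext (hu k).1 rfl
  refine ⟨(u k).2, fun _ => ⟨(List.suffix_cons k v).trans (hu k).2, ?_, ?_⟩⟩
  · rw [hk1]; exact hu2 k
  · rw [hk1]; exact hk

theorem exists_rec {α β : Type*} [Inhabited β] (code : α → ℕ) (Q : α → (α → β) → β → Prop)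
    (hQ : ∀ t g, ∃ b, Q t g b) : ∃ f : α → β, ∀ t, ∃ g : α → β,
      (∀ s, code s < code t → g s = f s) ∧ Q t g (f t) := by
  choose F hF using hQ
  let f : α → β := (InvImage.wf code wellFounded_lt).fix
    (fun t ih => F t (fun s => if h : code s < code t then ih s h else default))
  have hf : ∀ t, f t = F t (fun s => if code s < code t then f s else default) := fun t => by
    show (InvImage.wf code wellFounded_lt).fix _ t = _
    rw [WellFounded.fix_eq]
    congr 1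
  refine ⟨f, fun t => ⟨fun s => if code s < code t then f s else default,
    fun s hs => if_pos hs, ?_⟩⟩
  rw [hf t]
  exact hF t _

theorem encode_lt_cons (a : ℕ) (l : List ℕ) :
    Encodable.encode l < Encodable.encode (a :: l) := by
  rw [Encodable.encode_list_cons]
  exact Nat.lt_succ_of_le (Nat.right_le_pair _ _)

theorem exists_tree (S : TX 𝕜 →L[𝕜] TX 𝕜) (r : P)
    (hr : ∀ v, ple r v → ∃ u, ple v u ∧ 1 / 2 ≤ ‖(S (bv 𝕜 u)).c u‖) :
    ∃ ψ : List ℕ → List ℕ, (∀ a l, a :: ψ l <:+ ψ (a :: l)) ∧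
      (∀ l, 1 / 2 ≤ ‖(S (bv 𝕜 (r.1, ψ l))).c (r.1, ψ l)‖) ∧
      ∀ l m, Encodable.encode m < Encodable.encode l →
        ‖(S (bv 𝕜 (r.1, ψ m))).c (r.1, ψ l)‖ ≤ 1 / 16 * (1 / 4) ^ Encodable.encode l ∧
        ‖(S (bv 𝕜 (r.1, ψ l))).c (r.1, ψ m)‖ ≤ 1 / 16 * (1 / 4) ^ Encodable.encode l := by
  classical
  let base : List ℕ → (List ℕ → List ℕ) → List ℕ := fun l g =>
    match l with
    | [] => r.2
    | a :: m => a :: g m
  have hfin : ∀ l : List ℕ, {m : List ℕ | Encodable.encode m < Encodable.encode l}.Finite :=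
    fun l => (Set.finite_Iio (Encodable.encode l)).preimage Encodable.encode_injective.injOn
  obtain ⟨ψ, hψ⟩ := exists_rec (α := List ℕ) (β := List ℕ) Encodable.encode
    (fun l g u => r.2 <:+ base l g → (base l g <:+ u ∧
      1 / 2 ≤ ‖(S (bv 𝕜 (r.1, u))).c (r.1, u)‖ ∧
        ∀ p ∈ (hfin l).toFinset.image (fun m => ((r.1, g m) : P)),
        ‖(S (bv 𝕜 p)).c (r.1, u)‖ ≤ 1 / 16 * (1 / 4) ^ Encodable.encode l ∧
          ‖(S (bv 𝕜 (r.1, u))).c p‖ ≤ 1 / 16 * (1 / 4) ^ Encodable.encode l))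
    (fun l g => exists_next S r hr (base l g) _ (by positivity))
  choose g hg hψ using hψ
  have hb : ∀ a l, base (a :: l) (g (a :: l)) = a :: ψ l := fun a l => by
    show a :: g (a :: l) l = _
    rw [hg _ _ (encode_lt_cons a l)]
  have h0 : ∀ l, r.2 <:+ base l (g l) := fun l => by
    induction l with
    | nil => exact List.suffix_rfl
    | cons a l ih =>
      rw [hb]
      exact (ih.trans (hψ l ih).1).trans (List.suffix_cons _ _)
  refine ⟨ψ, fun a l => ?_, fun l => (hψ l (h0 l)).2.1, fun l m hlm => ?_⟩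
  · rw [← hb]; exact (hψ (a :: l) (h0 (a :: l))).1
  · refine (hψ l (h0 l)).2.2 _ (mem_image.2 ⟨m, ?_, ?_⟩)
    · simpa using hlm
    · rw [hg _ _ hlm]

theorem suffix_iff_of_tree {ψ : List ℕ → List ℕ} (h : ∀ a l, a :: ψ l <:+ ψ (a :: l))
    (l m : List ℕ) : ψ l <:+ ψ m ↔ l <:+ m := by
  have mono : ∀ m l : List ℕ, l <:+ m → ψ l <:+ ψ m := fun m => by
    induction m with
    | nil => intro l hl; rw [List.suffix_nil.1 hl]
    | cons a m ih =>
      intro l hl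
      rcases List.suffix_cons_iff.1 hl with rfl | hl
      · exact List.suffix_rfl
      · exact ((ih l hl).trans (List.suffix_cons _ _)).trans (h a m)
  refine ⟨fun hl => ?_, mono m l⟩
  induction l with
  | nil => exact List.nil_suffix
  | cons a l ih =>
    have h1 : a :: ψ l <:+ ψ m := (h a l).trans hl
    obtain ⟨k, rfl⟩ := ih ((List.suffix_cons _ _).trans h1)
    rcases List.eq_nil_or_concat k with rfl | ⟨k, b, rfl⟩
    · have := h1.length_le
      simp at this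
    · have h2 : b :: l <:+ k.concat b ++ l := ⟨k, by simp⟩
      have h3 : b :: ψ l <:+ ψ (k.concat b ++ l) := (h b l).trans (mono _ _ h2)
      have h4 : a :: ψ l = b :: ψ l := by
        rcases List.suffix_or_suffix_of_suffix h1 h3 with h5 | h5
        · exact h5.eq_of_length rfl
        · exact (h5.eq_of_length rfl).symm
      rw [List.cons.injEq] at h4
      rw [h4.1]; exact h2

theorem concat_suffix_iff (s t : P) : s.2 ++ [s.1] <:+ t.2 ++ [t.1] ↔ ple s t := by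
  rw [← List.reverse_prefix, ple, ← List.reverse_prefix]
  simp [List.cons_prefix_cons]

theorem sum_code_le {α : Type*} [DecidableEq α] (c : α → ℕ) (hc : Function.Injective c)
    (F : Finset α) : ∑ t ∈ F, (1 / 2 : ℝ) ^ c t ≤ 2 := by
  rw [← sum_image (g := c) (f := fun n => (1 / 2 : ℝ) ^ n) (fun s _ t _ h => hc h)]
  exact (summable_geometric_two.sum_le_tsum _ (fun _ _ => by positivity)).trans
    tsum_geometric_two.le

theorem factor_of_dense (S : TX 𝕜 →L[𝕜] TX 𝕜) (r : P)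
    (hr : ∀ v, ple r v → ∃ u, ple v u ∧ 1 / 2 ≤ ‖(S (bv 𝕜 u)).c u‖) :
    ∃ A B : TX 𝕜 →L[𝕜] TX 𝕜, ∀ x, A (S (B x)) = x := by
  obtain ⟨ψ, h1, h2, h3⟩ := exists_tree S r hr
  let φ : P → P := fun t => (r.1, ψ (t.2 ++ [t.1]))
  let c : P → ℕ := fun t => Encodable.encode (t.2 ++ [t.1])
  have hple : ∀ s t, ple (φ s) (φ t) ↔ ple s t := fun s t => by
    rw [← concat_suffix_iff s t, ← suffix_iff_of_tree h1]
    simp [ple, φ]
  have hcmp : ∀ s t, cmp (φ s) (φ t) ↔ cmp s t := fun s t => by simp [cmp, hple]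
  have hinj : Function.Injective φ := fun s t h => by
    have a1 : ple s t := (hple s t).1 (h ▸ ple_refl _)
    have a2 : ple t s := (hple t s).1 (h ▸ ple_refl _)
    exact eq_of_cmp_of_length (Or.inl a1) (le_antisymm a1.2.length_le a2.2.length_le)
  have hc : Function.Injective c := fun s t h => by
    have := Encodable.encode_injective h
    have h5 := List.append_inj' this rfl
    exact Prod.ext (by simpa using h5.2) h5.1
  have hoff : ∀ s t, s ≠ t →
      ‖(S (bv 𝕜 (φ s))).c (φ t)‖ ≤ 1 / 16 * ((1 / 2) ^ c s * (1 / 2) ^ c t) := fun s t hst => by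
    have hpow : ∀ a b : ℕ, a < b → (1 / 4 : ℝ) ^ b ≤ (1 / 2) ^ a * (1 / 2) ^ b := fun a b hab => by
      rw [show (1 / 4 : ℝ) = 1 / 2 * (1 / 2) by norm_num, mul_pow]
      gcongr ?_ * _
      exact pow_le_pow_of_le_one (by norm_num) (by norm_num) hab.le
    rcases lt_or_gt_of_ne (fun h => hst (hc h)) with h | h
    · exact (h3 _ _ h).1.trans (by gcongr; exact hpow _ _ h)
    · exact (h3 _ _ h).2.trans (by rw [mul_comm ((1 / 2 : ℝ) ^ c s)]; gcongr; exact hpow _ _ h)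
  let d : P → 𝕜 := fun t => (S (bv 𝕜 (φ t))).c (φ t)
  have hd : ∀ t, 1 / 2 ≤ ‖d t‖ := fun t => h2 _
  have hd0 : ∀ t, d t ≠ 0 := fun t h => by
    have := hd t
    rw [h, norm_zero] at this
    norm_num at this
  have hd2 : ∀ t, ‖(d t)⁻¹‖ ≤ 2 := fun t => by
    rw [norm_inv]
    exact inv_le_of_inv_le₀ (by norm_num) (by simpa using hd t)
  obtain ⟨A, hA⟩ : ∃ A : TX 𝕜 →L[𝕜] TX 𝕜, ∀ x t, (A x).c t = (d t)⁻¹ * x.c (φ t) :=
    ⟨mult (fun t => (d t)⁻¹) 2 zero_le_two hd2 ∘L pull φ hinj (fun s t h => (hcmp s t).2 h),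
      fun x t => rfl⟩
  obtain ⟨B, hB⟩ : ∃ B : TX 𝕜 →L[𝕜] TX 𝕜, ∀ s, B (bv 𝕜 s) = bv 𝕜 (φ s) :=
    ⟨push φ hinj (fun s t h => (hcmp s t).1 h), push_bv _ _ _⟩
  obtain ⟨E, hE⟩ : ∃ E : TX 𝕜 →L[𝕜] TX 𝕜, ∀ x, E x = x - A (S (B x)) :=
    ⟨1 - A ∘L S ∘L B, fun x => rfl⟩
  have hEs : ∀ s, ‖E (bv 𝕜 s)‖ ≤ 1 / 4 * (1 / 2) ^ c s := fun s => by
    refine TX.norm_le_l1 _ (fun F => ?_)
    calc ∑ t ∈ F, ‖(E (bv 𝕜 s)).c t‖ ≤ ∑ t ∈ F, 1 / 8 * (1 / 2 : ℝ) ^ c s * (1 / 2) ^ c t := by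
          refine sum_le_sum (fun t _ => ?_)
          rw [hE, TX.sub_c, Pi.sub_apply, hA, hB, bv_c]
          by_cases hts : t = s
          · rw [if_pos hts, hts, inv_mul_cancel₀ (hd0 s), sub_self, norm_zero]
            positivity
          · rw [if_neg hts, zero_sub, norm_neg, norm_mul]
            calc _ ≤ 2 * (1 / 16 * ((1 / 2 : ℝ) ^ c s * (1 / 2) ^ c t)) :=
                  mul_le_mul (hd2 t) (hoff s t (Ne.symm hts)) (norm_nonneg _) zero_le_two
              _ = _ := by ring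
      _ = 1 / 8 * (1 / 2 : ℝ) ^ c s * ∑ t ∈ F, (1 / 2 : ℝ) ^ c t := by rw [mul_sum]
      _ ≤ 1 / 8 * (1 / 2 : ℝ) ^ c s * 2 := by gcongr; exact sum_code_le c hc F
      _ = _ := by ring
  have hEn : ‖E‖ ≤ 1 / 2 := by
    refine opNorm_le_of_finset E (by norm_num) (fun x F => ?_)
    rw [res_finset, map_sum]
    calc ‖∑ t ∈ F, E (x.c t • bv 𝕜 t)‖ ≤ ∑ t ∈ F, ‖x‖ * (1 / 4 * (1 / 2 : ℝ) ^ c t) := by
          refine (norm_sum_le _ _).trans (sum_le_sum (fun t _ => ?_))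
          rw [map_smul, norm_smul]
          exact mul_le_mul (x.coord_le t) (hEs t) (norm_nonneg _) (norm_nonneg _)
      _ = ‖x‖ * (1 / 4) * ∑ t ∈ F, (1 / 2 : ℝ) ^ c t := by
          rw [mul_sum]; exact sum_congr rfl (fun t _ => by ring)
      _ ≤ ‖x‖ * (1 / 4) * 2 := by gcongr; exact sum_code_le c hc F
      _ = _ := by ring
  let U := Units.oneSub E (hEn.trans_lt (by norm_num))
  refine ⟨(↑U⁻¹ : TX 𝕜 →L[𝕜] TX 𝕜) ∘L A, B, fun x => ?_⟩
  have h5 : A (S (B x)) = (U : TX 𝕜 →L[𝕜] TX 𝕜) x := by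
    show _ = x - E x
    rw [hE]; abel
  rw [ContinuousLinearMap.comp_apply, h5, ← mul_apply_eq_comp, Units.inv_mul]
  rfl

theorem pfp (T : TX 𝕜 →L[𝕜] TX 𝕜) : (∃ A B : TX 𝕜 →L[𝕜] TX 𝕜, ∀ x, A (T (B x)) = x) ∨
    (∃ A B : TX 𝕜 →L[𝕜] TX 𝕜, ∀ x, A ((1 - T) (B x)) = x) := by
  by_cases h : ∀ v, ple (0, []) v → ∃ u, ple v u ∧ 1 / 2 ≤ ‖(T (bv 𝕜 u)).c u‖
  · exact Or.inl (factor_of_dense T _ h)
  · push Not at h
    obtain ⟨r, -, hr⟩ := h
    refine Or.inr (factor_of_dense (1 - T) r (fun v hv => ⟨v, ple_refl v, ?_⟩))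
    have h1 := hr v hv
    have h2 : ((1 - T) (bv 𝕜 v)).c v = 1 - (T (bv 𝕜 v)).c v := by
      show (bv 𝕜 v).c v - (T (bv 𝕜 v)).c v = _
      rw [bv_c, if_pos rfl]
    rw [h2]
    have h3 := norm_sub_norm_le (1 : 𝕜) ((T (bv 𝕜 v)).c v)
    rw [norm_one] at h3
    linarith

theorem TX.dec (Y Z : Submodule 𝕜 (TX 𝕜)) (hY : IsClosed (Y : Set (TX 𝕜)))
    (hZ : IsClosed (Z : Set (TX 𝕜))) (hc : IsCompl Y Z) :
    Nonempty (Y ≃L[𝕜] TX 𝕜) ∨ Nonempty (Z ≃L[𝕜] TX 𝕜) :=
  l2stable.dec pfp Y Z hY hZ hc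

end Pool.Agent.H713Z.Prim
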