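import Pool.Agent.H713Z.Prim.CotW
import Pool.Agent.H713Z.Prim.PFP
import Pool.Agent.H713Z.Prim.Gen

namespace Pool.Agent.H713Z.Prim

open Finset

variable {𝕜 : Type*} [RCLike 𝕜]

theorem val_dd_le (Φ : (TX 𝕜 →L[𝕜] 𝕜) →L[𝕜] 𝕜) {F : Finset P} {E : Setoid P} (h : Adm F E) :
    val F E (fun t => Φ (coord t)) ≤ ‖Φ‖ ^ 2 := by
  classical
  choose c hc1 hc2 using fun t => RCLike.exists_norm_eq_mul_self (Φ (coord t))
  let a : P → ℝ := fun s => ∑ t ∈ F, if E s t then ‖Φ (coord t)‖ else 0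
  have ha : ∀ s, 0 ≤ a s := fun s => sum_nonneg (fun t _ => by split_ifs <;> simp)
  have hb : ∀ b : P → ℝ, ∑ s ∈ F, a s * b s = bil F E b (fun t => ‖Φ (coord t)‖) := fun b => by
    unfold bil
    refine sum_congr rfl (fun s _ => ?_)
    simp only [a]
    rw [sum_mul]
    refine sum_congr rfl (fun t _ => ?_)
    split_ifs <;> ring
  set σ := val F E (fun t => Φ (coord t)) with hσ
  have hσ0 : 0 ≤ σ := val_nonneg _ _ _
  obtain ⟨g, hg⟩ : ∃ g : TX 𝕜 →L[𝕜] 𝕜, g = ∑ s ∈ F, ((a s : 𝕜) * c s) • coord s := ⟨_, rfl⟩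
  have a1 : ‖g‖ ≤ √σ := by
    refine g.opNorm_le_bound (Real.sqrt_nonneg _) (fun x => ?_)
    rw [hg, _root_.sum_apply]
    calc _ ≤ ∑ s ∈ F, a s * ‖x.c s‖ := by
          refine (norm_sum_le _ _).trans (sum_le_sum (fun s _ => le_of_eq ?_))
          rw [smul_apply, coord_apply, smul_eq_mul, norm_mul, norm_mul, hc1, mul_one,
            RCLike.norm_ofReal, abs_of_nonneg (ha s)]
      _ ≤ √(val F E x.c) * √σ := by rw [hb]; exact bil_cs _ _ _ _
      _ ≤ _ := by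
          rw [mul_comm]
          exact mul_le_mul_of_nonneg_left (x.sqrt_val_le h) (Real.sqrt_nonneg _)
  have a2 : Φ g = (σ : 𝕜) := by
    rw [hσ, val, ← hb, hg, map_sum]
    push_cast
    exact sum_congr rfl (fun q _ => by rw [map_smul, smul_eq_mul, mul_assoc, ← hc2])
  have a3 : σ ≤ ‖Φ‖ * √σ := by
    have := Φ.le_opNorm g
    rw [a2, RCLike.norm_ofReal, abs_of_nonneg hσ0] at this
    exact this.trans (mul_le_mul_of_nonneg_left a1 (norm_nonneg _))
  have a4 := Real.sq_sqrt hσ0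
  nlinarith [sq_nonneg (‖Φ‖ - √σ)]

theorem exists_op {D : Type*} [NormedAddCommGroup D] [NormedSpace 𝕜 D] (L : D → P → 𝕜)
    (h1 : ∀ x y t, L (x + y) t = L x t + L y t) (h2 : ∀ (c : 𝕜) x t, L (c • x) t = c * L x t)
    (h : ∀ x F E, Adm F E → val F E (L x) ≤ ‖x‖ ^ 2) :
    ∃ π : D →L[𝕜] TX 𝕜, ∀ x t, (π x).c t = L x t :=
  ⟨LinearMap.mkContinuous
    { toFun := fun Φ => TX.mk (L Φ) ⟨_, h Φ⟩
      map_add' := fun x y => TX.ext (fun t => h1 x y t)
      map_smul' := fun c x => TX.ext (fun t => h2 c x t) } 1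
    (fun Φ => by
      rw [one_mul]
      exact TX.norm_le _ (norm_nonneg Φ) (h Φ)), fun _ _ => rfl⟩

theorem exists_op2 {X : Type*} [NormedAddCommGroup X] [NormedSpace 𝕜 X] (c : P → X)
    (h : ∀ (Φ : X →L[𝕜] 𝕜) F E, Adm F E → val F E (fun t => Φ (c t)) ≤ ‖Φ‖ ^ 2) :
    ∃ π : (X →L[𝕜] 𝕜) →L[𝕜] TX 𝕜, ∀ Φ t, (π Φ).c t = Φ (c t) :=
  exists_op (D := X →L[𝕜] 𝕜) (fun Φ t => Φ (c t)) (fun _ _ _ => rfl) (fun _ _ _ => rfl) h

theorem exists_proj : ∃ π : ((TX 𝕜 →L[𝕜] 𝕜) →L[𝕜] 𝕜) →L[𝕜] TX 𝕜,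
    ∀ Φ t, (π Φ).c t = Φ (coord t) :=
  exists_op2 (X := TX 𝕜 →L[𝕜] 𝕜) coord (fun Φ _ _ h => val_dd_le Φ h)

/-- initial segments of a branch -/
def node (β : ℕ → ℕ) : ℕ → List ℕ
  | 0 => []
  | n + 1 => β n :: node β n

theorem node_length (β : ℕ → ℕ) (n : ℕ) : (node β n).length = n := by
  induction n with
  | zero => rfl
  | succ n ih => simp [node, ih]

theorem node_suffix (β : ℕ → ℕ) {m n : ℕ} (h : m ≤ n) : node β m <:+ node β n := by
  induction h with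
  | refl => exact List.suffix_rfl
  | step _ ih => exact ih.trans (List.suffix_cons _ _)

theorem node_eq {β β' : ℕ → ℕ} {n : ℕ} (h : node β n = node β' n) : ∀ k < n, β k = β' k := by
  induction n with
  | zero => intro k hk; omega
  | succ n ih =>
    simp only [node, List.cons.injEq] at h
    intro k hk
    rcases Nat.lt_succ_iff_lt_or_eq.1 hk with hk | rfl
    · exact ih h.2 k hk
    · exact h.1

theorem not_separable : ¬ TopologicalSpace.SeparableSpace ((TX 𝕜 →L[𝕜] 𝕜) →L[𝕜] 𝕜) := by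
  classical
  choose Φ hΦ using fun β : ℕ → ℕ =>
    exists_limit (𝕜 := 𝕜) (fun n => bv 𝕜 (0, node β n)) (fun n => norm_bv_le _)
  have hf : ∀ β : ℕ → ℕ, ∃ f : TX 𝕜 →L[𝕜] 𝕜, ‖f‖ ≤ 1 ∧
      ∀ t, f (bv 𝕜 t) = if ∃ n, t = (0, node β n) then 1 else 0 := fun β => by
    have key : ∀ (x : TX 𝕜) (F : Finset P),
        ∑ t ∈ F, ‖(if ∃ n, t = (0, node β n) then 1 else 0 : 𝕜)‖ * ‖x.c t‖ ≤ 1 * ‖x‖ :=
      fun x F => by
      rw [one_mul]
      refine le_trans (le_of_eq ?_) (chain_sum_le x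
        (F := F.filter (fun t => ∃ n, t = (0, node β n))) (fun s hs t ht => ?_))
      · rw [sum_filter]
        refine sum_congr rfl (fun t _ => ?_)
        split_ifs <;> simp
      · obtain ⟨m, rfl⟩ := (mem_filter.1 hs).2
        obtain ⟨n, rfl⟩ := (mem_filter.1 ht).2
        rcases le_total m n with h | h
        · exact Or.inl ⟨rfl, node_suffix β h⟩
        · exact Or.inr ⟨rfl, node_suffix β h⟩
    obtain ⟨f, hf⟩ := exists_functional _ key
    exact ⟨f, norm_functional_le f zero_le_one (fun x F => by simpa only [hf] using key x F), hf⟩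
  choose f hf1 hf2 using hf
  refine not_separable_of Φ f hf1 (fun β => ?_) (fun β β' hne => ?_)
  · exact hΦ β _ _ (Filter.Eventually.of_forall (fun n => by rw [hf2, if_pos ⟨n, rfl⟩]))
  · obtain ⟨k, hk⟩ := Function.ne_iff.1 hne
    exact hΦ β' _ _ (Filter.eventually_atTop.2 ⟨k + 1, fun n hn => by
      rw [hf2, if_neg]
      rintro ⟨m, hm⟩
      have b1 : node β' n = node β m := congrArg Prod.snd hm
      have b2 : n = m := by rw [← node_length β' n, b1, node_length]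
      subst b2
      exact hk (node_eq b1 k hn).symm⟩)

theorem separable : TopologicalSpace.SeparableSpace (TX 𝕜) := by
  have h1 : TopologicalSpace.IsSeparable
      (Submodule.span 𝕜 (Set.range (bv 𝕜)) : Set (TX 𝕜)) :=
    (Set.countable_range _).isSeparable.span
  refine TopologicalSpace.isSeparable_univ_iff.1 (h1.closure.mono (fun x _ => ?_))
  rw [Metric.mem_closure_iff]
  intro ε hε
  obtain ⟨F, hF⟩ := exists_finset_approx x (half_pos hε)
  refine ⟨res (F : Set P) x, ?_, by rw [dist_eq_norm]; linarith⟩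
  rw [res_finset]
  exact Submodule.sum_mem _ (fun t _ => Submodule.smul_mem _ _ (Submodule.subset_span ⟨t, rfl⟩))

universe u

theorem main (𝕜 : Type u) [RCLike 𝕜] :
    ∃ (X : Type u) (_ : NormedAddCommGroup X) (_ : NormedSpace 𝕜 X) (_ : CompleteSpace X),
      Primary 𝕜 X ∧ ∃ Y Z : Submodule 𝕜 (StrongDual 𝕜 X),
        IsClosed (Y : Set (StrongDual 𝕜 X)) ∧ IsClosed (Z : Set (StrongDual 𝕜 X)) ∧ IsCompl Y Z ∧
        IsEmpty (Y ≃L[𝕜] StrongDual 𝕜 X) ∧ IsEmpty (Z ≃L[𝕜] StrongDual 𝕜 X) := by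
  obtain ⟨proj, proj_c⟩ := exists_proj (𝕜 := 𝕜)
  refine main_of 𝕜 (TX 𝕜) TX.dec proj (fun x => TX.ext (fun t => ?_)) separable not_separable
    not_cot (fun J Φ h => cot_core J Φ (fun j t => ?_))
  · rw [proj_c, NormedSpace.dual_def, coord_apply]
  · rw [← proj_c, h j, TX.zero_c, Pi.zero_apply]

end Pool.Agent.H713Z.Prim
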