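import Pool.Agent.H713Z.Prim.Ops
import Pool.Agent.H713Z.Prim.Abs

namespace Pool.Agent.H713Z.Prim

open Finset

variable {𝕜 : Type*} [RCLike 𝕜]

/-- words of given length on a finite alphabet -/
def words (b : ℕ) : ℕ → Finset (List ℕ)
  | 0 => {[]}
  | n + 1 => (range b ×ˢ words b n).image (fun p => p.1 :: p.2)

theorem mem_words (b n : ℕ) : ∀ l : List ℕ, l ∈ words b n ↔ l.length = n ∧ ∀ a ∈ l, a < b := by
  induction n with
  | zero =>
    intro l
    simp only [words, mem_singleton, List.length_eq_zero_iff]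
    exact ⟨fun h => ⟨h, by simp [h]⟩, fun h => h.1⟩
  | succ n ih =>
    intro l
    simp only [words, mem_image, mem_product, mem_range, ih]
    constructor
    · rintro ⟨⟨a, m⟩, ⟨h1, h2, h3⟩, rfl⟩
      refine ⟨by simpa using h2, fun c hc => ?_⟩
      rcases List.mem_cons.1 hc with rfl | hc
      · exact h1
      · exact h3 c hc
    · rintro ⟨h1, h2⟩
      cases l with
      | nil => simp at h1
      | cons a m =>
        exact ⟨(a, m), ⟨h2 a (by simp), by simpa using h1, fun c hc => h2 c (by simp [hc])⟩, rfl⟩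

theorem card_words (b n : ℕ) : (words b n).card = b ^ n := by
  induction n with
  | zero => simp [words]
  | succ n ih =>
    rw [words, card_image_of_injective _ (fun p q h => by
      simp only [List.cons.injEq] at h; exact Prod.ext h.1 h.2), card_product, ih, card_range]
    ring

theorem card_filter_words (b n : ℕ) (l : List ℕ) (h1 : l.length ≤ n) (h2 : ∀ a ∈ l, a < b) :
    ((words b n).filter (fun j => l <:+ j)).card = b ^ (n - l.length) := by
  rw [← card_words, ← card_image_of_injective (words b (n - l.length))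
    (List.append_left_injective l)]
  congr 1
  ext j
  simp only [mem_filter, mem_image, mem_words]
  constructor
  · rintro ⟨⟨h3, h4⟩, k, rfl⟩
    refine ⟨k, ⟨?_, fun a ha => h4 a (by simp [ha])⟩, rfl⟩
    rw [List.length_append] at h3
    omega
  · rintro ⟨k, ⟨h3, h4⟩, rfl⟩
    refine ⟨⟨?_, fun a ha => ?_⟩, k, rfl⟩
    · rw [List.length_append]; omega
    · rcases List.mem_append.1 ha with ha | ha
      · exact h4 a ha
      · exact h2 a ha

/-- the predecessors of a node -/
def pred (u : P) : Finset P := (range (u.2.length + 1)).image (fun k => (u.1, u.2.drop k))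

theorem mem_pred (u t : P) : t ∈ pred u ↔ ple t u := by
  simp only [pred, mem_image, mem_range, ple]
  constructor
  · rintro ⟨k, _, rfl⟩
    exact ⟨rfl, List.drop_suffix _ _⟩
  · rintro ⟨h1, h2⟩
    refine ⟨u.2.length - t.2.length, by omega, Prod.ext h1.symm ?_⟩
    exact (List.suffix_iff_eq_drop.1 h2).symm

theorem card_pred (u : P) : (pred u).card = u.2.length + 1 := by
  rw [pred, card_image_of_injOn, card_range]
  intro k hk l hl h
  have := congrArg (fun t : P => t.2.length) h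
  simp only [List.length_drop] at this
  have h1 := mem_range.1 (mem_coe.1 hk)
  have h2 := mem_range.1 (mem_coe.1 hl)
  omega

theorem det_bound (y : TX 𝕜) (T : Finset P) (n : ℕ) (m : P → ℝ) (hy : ∀ t, t ∉ T → y.c t = 0)
    (hm : ∀ t ∈ T, 0 < m t) (hn : ∀ t ∈ T, t.2.length ≤ n)
    (hb : ∀ s ∈ T, ∀ t ∈ T, ple s t → s ≠ t → ((n : ℝ) + 1) ^ 4 * m t ≤ m s) :
    ‖y‖ ^ 2 ≤ ∑ t ∈ T, (3 * ‖y.c t‖ ^ 2 + 2 * m t + 2 * (‖y.c t‖ ^ 4 / m t)) := by
  classical
  refine y.sq_le (fun F E h => ?_)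
  set N : ℝ := (n : ℝ) + 1 with hN
  have hN0 : 0 < N := by positivity
  let φ : P → ℝ := fun t => ‖y.c t‖ ^ 2 + m t + ‖y.c t‖ ^ 4 / m t
  have hφ : ∀ t ∈ T, 0 ≤ φ t := fun t ht => by
    have := hm t ht
    positivity
  let G := F.filter (fun t => t ∈ T)
  have hGT : ∀ t ∈ G, t ∈ T := fun t ht => (mem_filter.1 ht).2
  have hG : Adm G E := h.subset (filter_subset _ _)
  have h1 : val F E y.c = val G E y.c := bil_subset (filter_subset _ _) E (fun t ht ht' => by
    rw [hy t (fun h => ht' (mem_filter.2 ⟨ht, h⟩)), norm_zero])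
  have key : ∀ s ∈ T, ∀ t ∈ T, ple s t → s ≠ t →
      ‖y.c s‖ * ‖y.c t‖ ≤ φ s * (1 / N) + φ t * (1 / N) := fun s hs t ht hst hne => by
    have a1 := hb s hs t ht hst hne
    have a2 := hm s hs
    have a3 := hm t ht
    set u := ‖y.c s‖
    set v := ‖y.c t‖
    have hu : 0 ≤ u := norm_nonneg _
    have hv : 0 ≤ v := norm_nonneg _
    have b1 : N * (u * v) ≤ u ^ 2 + N ^ 2 * v ^ 2 := by
      nlinarith [sq_nonneg (u - N * v), mul_nonneg hN0.le (mul_nonneg hu hv)]
    have b2 : N ^ 2 * v ^ 2 ≤ N ^ 4 * m t + v ^ 4 / m t := by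
      rw [← sub_le_iff_le_add', le_div_iff₀ a3]
      nlinarith [sq_nonneg (N ^ 2 * m t - v ^ 2), mul_nonneg (sq_nonneg (N * v)) a3.le]
    have b3 : 0 ≤ u ^ 4 / m s := by positivity
    have b4 : N * (u * v) ≤ φ s + φ t := by
      simp only [φ]
      nlinarith [sq_nonneg v]
    rw [← add_mul, mul_one_div, le_div_iff₀ hN0]
    linarith
  have h2 : val G E y.c ≤ ∑ s ∈ G, ‖y.c s‖ ^ 2 + 2 * bil G E φ (fun _ => 1 / N) := by
    rw [two_mul]
    nth_rewrite 2 [bil_symm]
    rw [← bil_bot]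
    unfold val bil
    simp only [← sum_add_distrib]
    refine sum_le_sum (fun s hs => sum_le_sum (fun t ht => ?_))
    have p1 := hφ s (hGT s hs)
    have p2 := hφ t (hGT t ht)
    by_cases hst : s = t
    · subst hst
      rw [if_pos (E.refl s), if_pos (E.refl s), if_pos (E.refl s), if_pos ((⊥ : Setoid P).refl s)]
      have : 0 ≤ φ s * (1 / N) + 1 / N * φ s := by positivity
      linarith
    · rw [if_neg (show ¬ (⊥ : Setoid P) s t from hst), zero_add]
      by_cases hE : E s t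
      · rw [if_pos hE, if_pos hE, if_pos hE]
        rcases hG s hs t ht hE with h3 | h3
        · have := key s (hGT s hs) t (hGT t ht) h3 hst
          linarith
        · have := key t (hGT t ht) s (hGT s hs) h3 (Ne.symm hst)
          linarith
      · rw [if_neg hE, if_neg hE, if_neg hE, add_zero]
  have h3 : bil G E φ (fun _ => 1 / N) ≤ ∑ s ∈ G, φ s := by
    unfold bil
    refine sum_le_sum (fun s hs => ?_)
    rw [← sum_filter, sum_const, nsmul_eq_mul]
    have hc : (G.filter (fun t => E s t)).card ≤ (range (n + 1)).card := by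
      refine card_le_card_of_injOn (fun t => t.2.length) (fun t ht => ?_) (fun t ht u hu htu => ?_)
      · exact mem_coe.2 (mem_range.2 (Nat.lt_succ_of_le (hn t (hGT t (mem_filter.1 ht).1))))
      · have a1 := mem_filter.1 (mem_coe.1 ht)
        have a2 := mem_filter.1 (mem_coe.1 hu)
        exact eq_of_cmp_of_length (hG t a1.1 u a2.1 (E.trans (E.symm a1.2) a2.2)) htu
    rw [card_range] at hc
    have hc' : ((G.filter (fun t => E s t)).card : ℝ) ≤ N := by rw [hN]; exact_mod_cast hc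
    calc _ ≤ N * (φ s * (1 / N)) := by
          have := hφ s (hGT s hs)
          gcongr
      _ = φ s := by field_simp
  rw [h1]
  calc val G E y.c ≤ ∑ s ∈ G, ‖y.c s‖ ^ 2 + 2 * ∑ s ∈ G, φ s := by linarith
    _ = ∑ t ∈ G, (3 * ‖y.c t‖ ^ 2 + 2 * m t + 2 * (‖y.c t‖ ^ 4 / m t)) := by
        rw [mul_sum, ← sum_add_distrib]
        exact sum_congr rfl (fun t _ => by simp only [φ]; ring)
    _ ≤ _ := sum_le_sum_of_subset_of_nonneg hGT (fun t ht _ => by
        have := hm t ht
        positivity)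

theorem not_cot : ¬ Cot (TX 𝕜) := by
  classical
  rintro ⟨C, hC, h⟩
  obtain ⟨n, hn⟩ := exists_nat_gt (11 * C)
  let b := (n + 1) ^ 4
  have hb : 0 < b := by positivity
  let J := words b n
  let x : List ℕ → TX 𝕜 := fun j => ∑ t ∈ pred (0, j), bv 𝕜 t
  have hx : ∀ j t, (x j).c t = if t ∈ pred (0, j) then 1 else 0 := fun j t => by
    simp only [x]
    rw [TX.sum_c]
    simp [bv_c]
  let T := J.biUnion (fun j => pred (0, j))
  let m : P → ℝ := fun t => ∑ j ∈ J, ‖(x j).c t‖ ^ 2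
  have hT : ∀ t ∈ T, t.1 = 0 ∧ t.2.length ≤ n ∧ ∀ a ∈ t.2, a < b := fun t ht => by
    obtain ⟨j, hj, ht⟩ := mem_biUnion.1 ht
    rw [mem_pred] at ht
    obtain ⟨h1, h2⟩ := (mem_words b n j).1 hj
    exact ⟨ht.1, h1 ▸ ht.2.length_le, fun a ha => h2 a (ht.2.subset ha)⟩
  have hm : ∀ t ∈ T, m t = (b : ℝ) ^ (n - t.2.length) := fun t ht => by
    obtain ⟨h1, h2, h3⟩ := hT t ht
    rw [← Nat.cast_pow, ← card_filter_words b n t.2 h2 h3, card_filter]
    push_cast
    refine sum_congr rfl (fun j _ => ?_)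
    rw [hx]
    simp only [mem_pred, ple, h1, true_and]
    split_ifs <;> simp
  have hm0 : ∀ t ∈ T, 0 < m t := fun t ht => by rw [hm t ht]; positivity
  have hlow : ∀ j ∈ J, ((n : ℝ) + 1) ^ 2 ≤ ‖x j‖ ^ 2 := fun j hj => by
    refine pow_le_pow_left₀ (by positivity) ?_ 2
    refine le_trans (le_of_eq ?_) (chain_sum_le (x j) (F := pred (0, j)) (fun s hs t ht =>
      cmp_of_ple ((mem_pred _ _).1 hs) ((mem_pred _ _).1 ht)))
    rw [sum_congr rfl (g := fun _ => (1 : ℝ)) (fun t ht => by rw [hx, if_pos ht, norm_one]),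
      sum_const, card_pred, ((mem_words b n j).1 hj).1]
    simp
  have hrc : ∀ s t, (rad J s x).c t = rad J s (fun j => (x j).c t) := fun s t =>
    map_rad (coord t) J s x
  have hup : ∀ s ∈ J.powerset, ‖rad J s x‖ ^ 2 ≤ ∑ t ∈ T, (3 * ‖(rad J s x).c t‖ ^ 2 + 2 * m t +
      2 * (‖(rad J s x).c t‖ ^ 4 / m t)) := fun s _ => by
    refine det_bound _ T n m (fun t ht => ?_) hm0 (fun t ht => (hT t ht).2.1)
      (fun s hs t ht hst hne => ?_)
    · rw [hrc]
      refine sum_eq_zero (fun j hj => ?_)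
      have : (x j).c t = 0 := by rw [hx, if_neg (fun h => ht (mem_biUnion.2 ⟨j, hj, h⟩))]
      simp [this]
    · rw [hm s hs, hm t ht]
      have a1 : s.2.length < t.2.length := lt_of_le_of_ne hst.2.length_le
        (fun h => hne (eq_of_cmp_of_length (Or.inl hst) h))
      have a2 := (hT t ht).2.1
      have a3 : ((n : ℝ) + 1) ^ 4 = (b : ℝ) := by simp [b]
      rw [a3, ← pow_succ']
      exact pow_le_pow_right₀ (by exact_mod_cast hb) (by omega)
  have hsum : ∑ s ∈ J.powerset, ‖rad J s x‖ ^ 2 ≤ 2 ^ J.card * (11 * ∑ t ∈ T, m t) := by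
    refine (sum_le_sum hup).trans ?_
    rw [sum_comm, mul_sum, mul_sum]
    refine sum_le_sum (fun t ht => ?_)
    rw [sum_add_distrib, sum_add_distrib, ← mul_sum, ← mul_sum, ← mul_sum, ← sum_div, sum_const,
      card_powerset]
    simp only [hrc]
    rw [rad_sq]
    have a1 := rad_four J (fun j => (x j).c t)
    have a2 : (∑ s ∈ J.powerset, ‖rad J s (fun j => (x j).c t)‖ ^ 4) / m t ≤
        3 * 2 ^ J.card * m t := by
      rw [div_le_iff₀ (hm0 t ht)]
      refine a1.trans (le_of_eq ?_)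
      simp only [m]; ring
    simp only [nsmul_eq_mul, Nat.cast_pow, Nat.cast_ofNat]
    change 3 * (2 ^ J.card * m t) + _ + _ ≤ _
    linarith
  have hsm : ∑ t ∈ T, m t ≤ J.card * ((n : ℝ) + 1) := by
    simp only [m]
    rw [sum_comm, ← nsmul_eq_mul, ← sum_const]
    refine sum_le_sum (fun j hj => ?_)
    rw [← sum_subset (subset_biUnion_of_mem (fun j => pred (0, j)) hj) (fun t _ ht => by
      rw [hx, if_neg ht]; simp),
      sum_congr rfl (g := fun _ => (1 : ℝ)) (fun t ht => by rw [hx, if_pos ht, norm_one, one_pow]),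
      sum_const, card_pred, ((mem_words b n j).1 hj).1]
    simp
  have h1 := h J x
  have h2 : (J.card : ℝ) * ((n : ℝ) + 1) ^ 2 ≤ ∑ j ∈ J, ‖x j‖ ^ 2 := by
    rw [← nsmul_eq_mul, ← sum_const]
    exact sum_le_sum hlow
  have hJ : (0 : ℝ) < J.card := by
    rw [card_words]; positivity
  have h3 : (2 : ℝ) ^ J.card * (J.card * ((n : ℝ) + 1) ^ 2) ≤
      C * (2 ^ J.card * (11 * (J.card * ((n : ℝ) + 1)))) := by
    calc _ ≤ (2 : ℝ) ^ J.card * ∑ j ∈ J, ‖x j‖ ^ 2 := by gcongr
      _ ≤ _ := h1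
      _ ≤ C * (2 ^ J.card * (11 * ∑ t ∈ T, m t)) := by gcongr
      _ ≤ _ := by gcongr
  have h4 : (0 : ℝ) < 2 ^ J.card * (J.card * ((n : ℝ) + 1)) := by positivity
  have h5 : (2 ^ J.card * (J.card * ((n : ℝ) + 1))) * ((n : ℝ) + 1) ≤
      (2 ^ J.card * (J.card * ((n : ℝ) + 1))) * (11 * C) := by
    calc _ = (2 : ℝ) ^ J.card * (J.card * ((n : ℝ) + 1) ^ 2) := by ring
      _ ≤ _ := h3
      _ = _ := by ring
  have := le_of_mul_le_mul_left h5 h4
  linarith

end Pool.Agent.H713Z.Prim
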