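import Pool.Agent.H713Z.Prim.Space

namespace Pool.Agent.H713Z.Prim

open Finset

variable {𝕜 : Type*} [RCLike 𝕜]

/-- coordinate functional -/
noncomputable def coord (t : P) : TX 𝕜 →L[𝕜] 𝕜 :=
  LinearMap.mkContinuous
    { toFun := fun x => x.c t
      map_add' := fun _ _ => rfl
      map_smul' := fun _ _ => rfl } 1 (fun x => by simpa using x.coord_le t)

@[simp] theorem coord_apply (t : P) (x : TX 𝕜) : coord t x = x.c t := rfl

theorem TX.sum_c {ι : Type*} (F : Finset ι) (x : ι → TX 𝕜) (t : P) :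
    (∑ i ∈ F, x i).c t = ∑ i ∈ F, (x i).c t := map_sum (coord t) x F

theorem val_le_l1 (F : Finset P) (E : Setoid P) (x : P → 𝕜) :
    val F E x ≤ (∑ t ∈ F, ‖x t‖) ^ 2 := bil_le_top F E (fun _ => norm_nonneg _)

theorem TX.norm_le_l1 (x : TX 𝕜) {K : ℝ} (h : ∀ F : Finset P, ∑ t ∈ F, ‖x.c t‖ ≤ K) :
    ‖x‖ ≤ K := by
  have hK : 0 ≤ K := by simpa using h ∅
  exact x.norm_le hK (fun F E _ => (val_le_l1 F E _).trans
    (pow_le_pow_left₀ (sum_nonneg (fun _ _ => norm_nonneg _)) (h F) 2))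

theorem sum_single_le (t : P) (F : Finset P) : ∑ s ∈ F, ‖(Pi.single t 1 : P → 𝕜) s‖ ≤ 1 := by
  by_cases ht : t ∈ F
  · rw [sum_eq_single t (fun s _ hs => by simp [hs]) (fun h => absurd ht h)]
    simp
  · rw [sum_eq_zero (fun s hs => by
      have : s ≠ t := fun h => ht (h ▸ hs)
      simp [this])]
    exact zero_le_one

variable (𝕜) in
/-- basis vectors -/
noncomputable def bv (t : P) : TX 𝕜 := TX.mk (Pi.single t 1) ⟨1 ^ 2, fun F E _ =>
  (val_le_l1 F E _).trans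
    (pow_le_pow_left₀ (sum_nonneg (fun _ _ => norm_nonneg _)) (sum_single_le t F) 2)⟩

theorem bv_c (t s : P) : (bv 𝕜 t).c s = if s = t then 1 else 0 := by
  simp [bv, Pi.single_apply]

theorem norm_bv_le (t : P) : ‖bv 𝕜 t‖ ≤ 1 := TX.norm_le_l1 _ (sum_single_le t)

/-- diagonal operators -/
noncomputable def mult (θ : P → 𝕜) (K : ℝ) (hK : 0 ≤ K) (hθ : ∀ t, ‖θ t‖ ≤ K) :
    TX 𝕜 →L[𝕜] TX 𝕜 :=
  LinearMap.mkContinuous
    { toFun := fun x => TX.mk (fun t => θ t * x.c t) (x.bdd.of_le (K := K) (fun t => by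
        rw [norm_mul]; exact mul_le_mul_of_nonneg_right (hθ t) (norm_nonneg _)))
      map_add' := fun x y => TX.ext (fun t => by simp [mul_add])
      map_smul' := fun c x => TX.ext (fun t => by simp [mul_left_comm]) } K
    (fun x => TX.norm_le_of_le hK (fun t => by
      simp only [LinearMap.coe_mk, AddHom.coe_mk, TX.mk_c]
      rw [norm_mul]; exact mul_le_mul_of_nonneg_right (hθ t) (norm_nonneg _)))

@[simp] theorem mult_c (θ : P → 𝕜) (K : ℝ) (hK : 0 ≤ K) (hθ : ∀ t, ‖θ t‖ ≤ K) (x : TX 𝕜)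
    (t : P) : (mult θ K hK hθ x).c t = θ t * x.c t := rfl

open Classical in
/-- restriction operators -/
noncomputable def res (A : Set P) : TX 𝕜 →L[𝕜] TX 𝕜 :=
  mult (fun t => if t ∈ A then 1 else 0) 1 zero_le_one (fun t => by split_ifs <;> simp)

open Classical in
theorem res_c (A : Set P) (x : TX 𝕜) (t : P) : (res A x).c t = if t ∈ A then x.c t else 0 := by
  simp [res]

theorem res_c_mem {A : Set P} (x : TX 𝕜) {t : P} (h : t ∈ A) : (res A x).c t = x.c t := by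
  rw [res_c, if_pos h]

theorem res_c_notMem {A : Set P} (x : TX 𝕜) {t : P} (h : t ∉ A) : (res A x).c t = 0 := by
  rw [res_c, if_neg h]

theorem res_c_le (A : Set P) (x : TX 𝕜) (t : P) : ‖(res A x).c t‖ ≤ ‖x.c t‖ := by
  rw [res_c]; split_ifs <;> simp

theorem norm_res_le (A : Set P) (x : TX 𝕜) : ‖res A x‖ ≤ ‖x‖ := by
  have := TX.norm_le_of_le (x := x) (y := res A x) zero_le_one
    (fun t => by rw [one_mul]; exact res_c_le A x t)
  rwa [one_mul] at this

theorem res_add_compl (A : Set P) (x : TX 𝕜) : res A x + res Aᶜ x = x :=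
  TX.ext (fun t => by
    by_cases h : t ∈ A
    · simp [res_c, h]
    · simp [res_c, h])

theorem res_finset (F : Finset P) (x : TX 𝕜) : res (F : Set P) x = ∑ t ∈ F, x.c t • bv 𝕜 t :=
  TX.ext (fun s => by
    rw [TX.sum_c, res_c]
    simp [bv_c])

theorem val_add_res_le (x : TX 𝕜) (A : Set P) {F : Finset P} {E : Setoid P} (h : Adm F E) :
    val F E (res A x).c + ‖res Aᶜ x‖ ^ 2 ≤ ‖x‖ ^ 2 := by
  classical
  rw [← le_sub_iff_add_le']
  refine TX.sq_le _ (fun G E' h' => ?_)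
  rw [le_sub_iff_add_le']
  obtain ⟨E'', h1, h2⟩ := bil_union (h.subset (filter_subset (fun t => t ∈ A) F))
    (h'.subset (filter_subset (fun t => t ∉ A) G))
    (disjoint_left.2 (fun t ht ht' => (mem_filter.1 ht').2 (mem_filter.1 ht).2))
  refine le_trans (le_of_eq ?_) (x.val_le h1)
  unfold val
  rw [h2]
  congr 1
  · rw [bil_subset (filter_subset (fun t => t ∈ A) F) E (fun t ht ht' => by
      rw [res_c_notMem x (fun h => ht' (mem_filter.2 ⟨ht, h⟩)), norm_zero])]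
    exact bil_congr _ _ (fun t ht => by rw [res_c_mem x (mem_filter.1 ht).2])
  · rw [bil_subset (filter_subset (fun t => t ∉ A) G) E' (fun t ht ht' => by
      rw [res_c_notMem x (A := Aᶜ) (fun h => ht' (mem_filter.2 ⟨ht, h⟩)), norm_zero])]
    exact bil_congr _ _ (fun t ht => by rw [res_c_mem x (A := Aᶜ) (mem_filter.1 ht).2])

theorem res_lower (x : TX 𝕜) (A : Set P) : ‖res A x‖ ^ 2 + ‖res Aᶜ x‖ ^ 2 ≤ ‖x‖ ^ 2 := by
  rw [← le_sub_iff_add_le]
  exact TX.sq_le _ (fun F E h => by rw [le_sub_iff_add_le]; exact val_add_res_le x A h)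

theorem exists_finset_approx (x : TX 𝕜) {ε : ℝ} (hε : 0 < ε) :
    ∃ F : Finset P, ‖x - res (F : Set P) x‖ ≤ ε := by
  by_contra hcon
  push Not at hcon
  have : ‖x‖ ^ 2 ≤ ‖x‖ ^ 2 - ε ^ 2 := by
    refine TX.sq_le _ (fun F E h => ?_)
    have h1 := val_add_res_le x (F : Set P) h
    have h2 : val F E (res (F : Set P) x).c = val F E x.c :=
      bil_congr _ _ (fun t ht => by rw [res_c_mem x (mem_coe.2 ht)])
    have h3 : res (F : Set P)ᶜ x = x - res (F : Set P) x := by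
      rw [eq_sub_iff_add_eq', res_add_compl]
    rw [h2, h3] at h1
    have h4 : ε ^ 2 ≤ ‖x - res (F : Set P) x‖ ^ 2 := pow_le_pow_left₀ hε.le (hcon F).le 2
    linarith
  nlinarith

theorem opNorm_le_of_finset {G : Type*} [NormedAddCommGroup G] [NormedSpace 𝕜 G]
    (g : TX 𝕜 →L[𝕜] G) {K : ℝ} (hK : 0 ≤ K)
    (h : ∀ (x : TX 𝕜) (F : Finset P), ‖g (res (F : Set P) x)‖ ≤ K * ‖x‖) : ‖g‖ ≤ K := by
  refine g.opNorm_le_bound hK (fun x => le_of_forall_pos_le_add (fun ε hε => ?_))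
  obtain ⟨F, hF⟩ := exists_finset_approx x (ε := ε / (‖g‖ + 1)) (by positivity)
  have h1 : g x = g (res (F : Set P) x) + g (x - res (F : Set P) x) := by simp
  rw [h1]
  refine (norm_add_le _ _).trans (add_le_add (h x F) ((g.le_opNorm _).trans ?_))
  calc ‖g‖ * ‖x - res (F : Set P) x‖ ≤ (‖g‖ + 1) * (ε / (‖g‖ + 1)) := by
        gcongr; linarith
    _ = ε := by field_simp

theorem norm_functional_le (f : TX 𝕜 →L[𝕜] 𝕜) {K : ℝ} (hK : 0 ≤ K)
    (h : ∀ (x : TX 𝕜) (F : Finset P), ∑ t ∈ F, ‖f (bv 𝕜 t)‖ * ‖x.c t‖ ≤ K * ‖x‖) : ‖f‖ ≤ K := by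
  refine opNorm_le_of_finset f hK (fun x F => le_trans ?_ (h x F))
  rw [res_finset, map_sum]
  refine (norm_sum_le _ _).trans (sum_le_sum (fun t _ => ?_))
  rw [map_smul, smul_eq_mul, norm_mul, mul_comm]

theorem exists_functional (θ : P → 𝕜) {K : ℝ}
    (h : ∀ (x : TX 𝕜) (F : Finset P), ∑ t ∈ F, ‖θ t‖ * ‖x.c t‖ ≤ K * ‖x‖) :
    ∃ f : TX 𝕜 →L[𝕜] 𝕜, ∀ t, f (bv 𝕜 t) = θ t := by
  have hs : ∀ x : TX 𝕜, Summable (fun t => ‖θ t * x.c t‖) := fun x =>
    summable_of_sum_le (fun _ => norm_nonneg _) (c := K * ‖x‖) (fun F => by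
      simpa only [norm_mul] using h x F)
  let L : TX 𝕜 →ₗ[𝕜] 𝕜 :=
    { toFun := fun x => ∑' t, θ t * x.c t
      map_add' := fun x y => by
        rw [← (hs x).of_norm.tsum_add (hs y).of_norm]
        simp [mul_add]
      map_smul' := fun c x => by
        simp only [TX.smul_c, Pi.smul_apply, smul_eq_mul, RingHom.id_apply]
        rw [← tsum_mul_left]
        exact tsum_congr (fun t => by ring) }
  refine ⟨L.mkContinuous K (fun x => ?_), fun t => ?_⟩
  · refine (norm_tsum_le_tsum_norm (hs x)).trans ((hs x).tsum_le_of_sum_le (fun F => ?_))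
    simpa only [norm_mul] using h x F
  · show ∑' s, θ s * (bv 𝕜 t).c s = θ t
    rw [tsum_eq_single t (fun s hs => by simp [bv_c, hs])]
    simp [bv_c]

theorem chain_sum_le (x : TX 𝕜) {F : Finset P} (h : ∀ s ∈ F, ∀ t ∈ F, cmp s t) :
    ∑ t ∈ F, ‖x.c t‖ ≤ ‖x‖ := by
  have h1 := x.val_le (F := F) (E := ⊤) (fun s hs t ht _ => h s hs t ht)
  rw [val, bil_top] at h1
  exact (pow_le_pow_iff_left₀ (sum_nonneg (fun _ _ => norm_nonneg _)) x.nn two_ne_zero).1 h1

/-- functionals along an antichain -/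
theorem anti_sum_le (f : TX 𝕜 →L[𝕜] 𝕜) {F : Finset P}
    (h : ∀ s ∈ F, ∀ t ∈ F, cmp s t → s = t) : ∑ t ∈ F, ‖f (bv 𝕜 t)‖ ^ 2 ≤ ‖f‖ ^ 2 := by
  set σ := ∑ t ∈ F, ‖f (bv 𝕜 t)‖ ^ 2 with hσ
  have hσ0 : 0 ≤ σ := by positivity
  let x : TX 𝕜 := ∑ t ∈ F, (starRingEnd 𝕜 (f (bv 𝕜 t))) • bv 𝕜 t
  have hx : ∀ s, x.c s = if s ∈ F then starRingEnd 𝕜 (f (bv 𝕜 s)) else 0 := fun s => by
    simp only [x]
    rw [TX.sum_c]
    simp [bv_c]
  have h1 : ‖x‖ ^ 2 ≤ σ := by
    refine x.sq_le (fun G E hG => ?_)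
    have hF : ∀ s, ‖x.c s‖ ≠ 0 → s ∈ F := fun s hs => by
      by_contra hn
      rw [hx, if_neg hn, norm_zero] at hs
      exact hs rfl
    rw [val, bil_anti G E _ (fun s hs t ht hE h1 h2 => h s (hF s h1) t (hF t h2)
      (hG s hs t ht hE))]
    calc ∑ t ∈ G, ‖x.c t‖ ^ 2 ≤ ∑ t ∈ G ∪ F, ‖x.c t‖ ^ 2 :=
          sum_le_sum_of_subset_of_nonneg subset_union_left (fun _ _ _ => by positivity)
      _ = ∑ t ∈ F, ‖x.c t‖ ^ 2 := by
          refine (sum_subset subset_union_right (fun t _ ht => ?_)).symm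
          rw [hx, if_neg ht]; simp
      _ = σ := sum_congr rfl (fun t ht => by rw [hx, if_pos ht, RCLike.norm_conj])
  have h2 : f x = (σ : 𝕜) := by
    simp only [x, map_sum, map_smul, smul_eq_mul, hσ, RCLike.conj_mul]
    push_cast
    rfl
  have h3 : σ ≤ ‖f‖ * ‖x‖ := by
    have := f.le_opNorm x
    rwa [h2, RCLike.norm_ofReal, abs_of_nonneg hσ0] at this
  have h4 : σ ^ 2 ≤ ‖f‖ ^ 2 * σ := by
    calc σ ^ 2 ≤ (‖f‖ * ‖x‖) ^ 2 := pow_le_pow_left₀ hσ0 h3 2
      _ = ‖f‖ ^ 2 * ‖x‖ ^ 2 := by ring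
      _ ≤ _ := by gcongr
  rcases hσ0.eq_or_lt with h0 | h0
  · rw [← h0]; positivity
  · rw [sq, mul_comm] at h4
    exact le_of_mul_le_mul_right h4 h0

theorem val_pull {φ : P → P} (hφ : Function.Injective φ) (F : Finset P) (E : Setoid P)
    (x : P → 𝕜) :
    val F E (fun t => x (φ t)) = val (F.image φ) (Setoid.comap (Function.invFun φ) E) x := by
  unfold val bil
  rw [sum_image (fun s _ t _ h => hφ h)]
  refine sum_congr rfl (fun s _ => ?_)
  rw [sum_image (fun s _ t _ h => hφ h)]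
  refine sum_congr rfl (fun t _ => ?_)
  have : (Setoid.comap (Function.invFun φ) E) (φ s) (φ t) ↔ E s t := by
    rw [Setoid.comap_rel, Function.leftInverse_invFun hφ s, Function.leftInverse_invFun hφ t]
  by_cases h : E s t
  · rw [if_pos h, if_pos (this.2 h)]
  · rw [if_neg h, if_neg (fun h' => h (this.1 h'))]

theorem val_pull_le {φ : P → P} (hφ : Function.Injective φ)
    (hc : ∀ s t, cmp s t → cmp (φ s) (φ t)) (x : TX 𝕜) {F : Finset P} {E : Setoid P}
    (h : Adm F E) : val F E (fun t => x.c (φ t)) ≤ ‖x‖ ^ 2 := by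
  rw [val_pull hφ]
  refine x.val_le (fun s hs t ht hE => ?_)
  obtain ⟨s, hs', rfl⟩ := mem_image.1 hs
  obtain ⟨t, ht', rfl⟩ := mem_image.1 ht
  rw [Setoid.comap_rel, Function.leftInverse_invFun hφ s,
    Function.leftInverse_invFun hφ t] at hE
  exact hc s t (h s hs' t ht' hE)

/-- pull back along an embedding -/
noncomputable def pull (φ : P → P) (hφ : Function.Injective φ)
    (hc : ∀ s t, cmp s t → cmp (φ s) (φ t)) : TX 𝕜 →L[𝕜] TX 𝕜 :=
  LinearMap.mkContinuous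
    { toFun := fun x => TX.mk (fun t => x.c (φ t)) ⟨_, fun _ _ h => val_pull_le hφ hc x h⟩
      map_add' := fun x y => TX.ext (fun t => rfl)
      map_smul' := fun c x => TX.ext (fun t => rfl) } 1
    (fun x => by
      rw [one_mul]
      exact TX.norm_le _ x.nn (fun _ _ h => val_pull_le hφ hc x h))

@[simp] theorem pull_c (φ : P → P) (hφ : Function.Injective φ)
    (hc : ∀ s t, cmp s t → cmp (φ s) (φ t)) (x : TX 𝕜) (t : P) :
    (pull φ hφ hc x).c t = x.c (φ t) := rfl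

theorem norm_pull_le (φ : P → P) (hφ : Function.Injective φ)
    (hc : ∀ s t, cmp s t → cmp (φ s) (φ t)) (x : TX 𝕜) : ‖pull φ hφ hc x‖ ≤ ‖x‖ :=
  TX.norm_le _ x.nn (fun _ _ h => val_pull_le hφ hc x h)

theorem val_preimage {φ : P → P} (hφ : Function.Injective φ) (F : Finset P) (E : Setoid P)
    (y : P → 𝕜) (hy : ∀ t ∈ F, t ∉ Set.range φ → y t = 0) :
    val F E y = val (F.preimage φ hφ.injOn) (Setoid.comap φ E) (fun t => y (φ t)) := by
  classical
  have h1 : val F E y = val ((F.preimage φ hφ.injOn).image φ) E y := by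
    rw [image_preimage]
    exact bil_subset (filter_subset _ _) E (fun t ht ht' => by
      rw [hy t ht (fun h => ht' (mem_filter.2 ⟨ht, h⟩)), norm_zero])
  rw [h1]
  unfold val bil
  rw [sum_image (fun s _ t _ h => hφ h)]
  refine sum_congr rfl (fun s _ => ?_)
  rw [sum_image (fun s _ t _ h => hφ h)]
  rfl

theorem val_push_le {φ : P → P} (hφ : Function.Injective φ)
    (hc : ∀ s t, cmp (φ s) (φ t) → cmp s t) (x : TX 𝕜) {F : Finset P} {E : Setoid P}
    (h : Adm F E) : val F E (Function.extend φ x.c 0) ≤ ‖x‖ ^ 2 := by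
  rw [val_preimage hφ F E _ (fun t _ ht => by
    rw [Function.extend_apply' _ _ _ (fun ⟨a, ha⟩ => ht ⟨a, ha⟩)]; rfl)]
  simp only [hφ.extend_apply]
  exact x.val_le (fun s hs t ht hE => hc s t (h _ (mem_preimage.1 hs) _ (mem_preimage.1 ht) hE))

/-- push forward along an embedding -/
noncomputable def push (φ : P → P) (hφ : Function.Injective φ)
    (hc : ∀ s t, cmp (φ s) (φ t) → cmp s t) : TX 𝕜 →L[𝕜] TX 𝕜 :=
  LinearMap.mkContinuous
    { toFun := fun x => TX.mk (Function.extend φ x.c 0) ⟨_, fun _ _ h => val_push_le hφ hc x h⟩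
      map_add' := fun x y => TX.ext (fun t => by
        by_cases ht : ∃ a, φ a = t
        · obtain ⟨a, rfl⟩ := ht
          simp [hφ.extend_apply]
        · simp [Function.extend_apply' _ _ _ ht])
      map_smul' := fun c x => TX.ext (fun t => by
        by_cases ht : ∃ a, φ a = t
        · obtain ⟨a, rfl⟩ := ht
          simp [hφ.extend_apply]
        · simp [Function.extend_apply' _ _ _ ht]) } 1
    (fun x => by
      rw [one_mul]
      exact TX.norm_le _ x.nn (fun _ _ h => val_push_le hφ hc x h))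

theorem push_bv (φ : P → P) (hφ : Function.Injective φ)
    (hc : ∀ s t, cmp (φ s) (φ t) → cmp s t) (s : P) : push φ hφ hc (bv 𝕜 s) = bv 𝕜 (φ s) :=
  TX.ext (fun t => by
    show Function.extend φ (bv 𝕜 s).c 0 t = _
    by_cases ht : ∃ a, φ a = t
    · obtain ⟨a, rfl⟩ := ht
      simp [hφ.extend_apply, bv_c, hφ.eq_iff]
    · rw [Function.extend_apply' _ _ _ ht, bv_c, if_neg (fun h => ht ⟨s, h.symm⟩)]
      rfl)

end Pool.Agent.H713Z.Prim
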