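import Mathlib

namespace Pool.Agent.H713Z.Prim

open Finset

/-- nodes of a countable forest of countably branching trees -/
abbrev P := ℕ × List ℕ

/-- tree order -/
def ple (s t : P) : Prop := s.1 = t.1 ∧ s.2 <:+ t.2

/-- comparability -/
def cmp (s t : P) : Prop := ple s t ∨ ple t s

theorem ple_refl (s : P) : ple s s := ⟨rfl, List.suffix_rfl⟩
theorem ple_trans {s t u : P} (h : ple s t) (h' : ple t u) : ple s u :=
  ⟨h.1.trans h'.1, h.2.trans h'.2⟩
theorem cmp_refl (s : P) : cmp s s := Or.inl (ple_refl s)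
theorem cmp_symm {s t : P} (h : cmp s t) : cmp t s := h.symm
theorem cmp_of_ple {s t u : P} (h : ple s u) (h' : ple t u) : cmp s t := by
  rcases List.suffix_or_suffix_of_suffix h.2 h'.2 with h2 | h2
  · exact Or.inl ⟨h.1.trans h'.1.symm, h2⟩
  · exact Or.inr ⟨h'.1.trans h.1.symm, h2⟩
theorem eq_of_cmp_of_length {s t : P} (h : cmp s t) (hl : s.2.length = t.2.length) : s = t := by
  rcases h with h | h
  · exact Prod.ext h.1 (h.2.eq_of_length hl)
  · exact Prod.ext h.1.symm (h.2.eq_of_length hl.symm).symm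

/-- admissible patterns: a finite set partitioned in chains -/
def Adm (F : Finset P) (E : Setoid P) : Prop := ∀ s ∈ F, ∀ t ∈ F, E s t → cmp s t

open Classical in
/-- the bilinear form of a pattern -/
noncomputable def bil (F : Finset P) (E : Setoid P) (a b : P → ℝ) : ℝ :=
  ∑ s ∈ F, ∑ t ∈ F, if E s t then a s * b t else 0

theorem bil_ker {ι : Type*} [DecidableEq ι] (F : Finset P) (c : P → ι) (a b : P → ℝ) :
    bil F (Setoid.ker c) a b = ∑ i ∈ F.image c,
      (∑ s ∈ F.filter (fun s => c s = i), a s) * (∑ t ∈ F.filter (fun t => c t = i), b t) := by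
  classical
  unfold bil
  rw [← sum_fiberwise_of_maps_to (g := c) (t := F.image c) (fun s hs => mem_image_of_mem c hs)]
  refine sum_congr rfl (fun i _ => ?_)
  rw [sum_mul]
  refine sum_congr rfl (fun s hs => ?_)
  rw [mul_sum, sum_filter]
  refine sum_congr rfl (fun t _ => ?_)
  have := (mem_filter.1 hs).2
  simp only [Setoid.ker_def, this, eq_comm]

theorem bil_cs (F : Finset P) (E : Setoid P) (a b : P → ℝ) :
    bil F E a b ≤ √(bil F E a a) * √(bil F E b b) := by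
  classical
  rw [← Setoid.ker_mk_eq E]
  simp only [bil_ker, ← sq]
  exact Real.sum_mul_le_sqrt_mul_sqrt _ _ _

theorem bil_self_nonneg (F : Finset P) (E : Setoid P) (a : P → ℝ) : 0 ≤ bil F E a a := by
  classical
  rw [← Setoid.ker_mk_eq E, bil_ker]
  exact sum_nonneg (fun i _ => mul_self_nonneg _)

theorem bil_symm (F : Finset P) (E : Setoid P) (a b : P → ℝ) : bil F E a b = bil F E b a := by
  unfold bil
  rw [sum_comm]
  refine sum_congr rfl (fun s _ => sum_congr rfl (fun t _ => ?_))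
  by_cases h : E s t
  · rw [if_pos h, if_pos (E.symm h), mul_comm]
  · rw [if_neg h, if_neg (fun h' => h (E.symm h'))]

theorem bil_add (F : Finset P) (E : Setoid P) (a b : P → ℝ) :
    bil F E (fun t => a t + b t) (fun t => a t + b t) =
      bil F E a a + 2 * bil F E a b + bil F E b b := by
  rw [two_mul]
  nth_rewrite 2 [bil_symm F E a b]
  unfold bil
  simp only [← sum_add_distrib]
  refine sum_congr rfl (fun s _ => sum_congr rfl (fun t _ => ?_))
  split_ifs <;> ring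

theorem bil_mono (F : Finset P) (E : Setoid P) {a b : P → ℝ} (ha : ∀ t ∈ F, 0 ≤ a t)
    (hab : ∀ t ∈ F, a t ≤ b t) : bil F E a a ≤ bil F E b b := by
  unfold bil
  refine sum_le_sum (fun s hs => sum_le_sum (fun t ht => ?_))
  split_ifs
  · exact mul_le_mul (hab s hs) (hab t ht) (ha t ht) ((ha s hs).trans (hab s hs))
  · exact le_rfl

theorem bil_smul (F : Finset P) (E : Setoid P) (a : P → ℝ) (k : ℝ) :
    bil F E (fun t => k * a t) (fun t => k * a t) = k ^ 2 * bil F E a a := by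
  unfold bil
  simp only [mul_sum]
  refine sum_congr rfl (fun s _ => sum_congr rfl (fun t _ => ?_))
  split_ifs <;> ring

theorem bil_congr (F : Finset P) (E : Setoid P) {a b : P → ℝ} (h : ∀ t ∈ F, a t = b t) :
    bil F E a a = bil F E b b := by
  unfold bil
  refine sum_congr rfl (fun s hs => sum_congr rfl (fun t ht => ?_))
  rw [h s hs, h t ht]

theorem bil_subset {F G : Finset P} (hFG : G ⊆ F) (E : Setoid P) {a : P → ℝ}
    (h : ∀ t ∈ F, t ∉ G → a t = 0) : bil F E a a = bil G E a a := by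
  unfold bil
  rw [← sum_subset hFG (fun s hs hs' => by simp [h s hs hs'])]
  refine sum_congr rfl (fun s _ => ?_)
  rw [← sum_subset hFG (fun t ht ht' => by simp [h t ht ht'])]

theorem Adm.subset {F G : Finset P} {E : Setoid P} (h : Adm F E) (hFG : G ⊆ F) : Adm G E :=
  fun s hs t ht => h s (hFG hs) t (hFG ht)

theorem bil_union {F G : Finset P} {E E' : Setoid P} (h : Adm F E) (h' : Adm G E')
    (hd : Disjoint F G) : ∃ E'' : Setoid P, Adm (F ∪ G) E'' ∧
      ∀ a : P → ℝ, bil (F ∪ G) E'' a a = bil F E a a + bil G E' a a := by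
  classical
  let c : P → Quotient E ⊕ Quotient E' := fun t =>
    if t ∈ F then Sum.inl (Quotient.mk E t) else Sum.inr (Quotient.mk E' t)
  have hG : ∀ t ∈ G, t ∉ F := fun t ht hF => disjoint_left.1 hd hF ht
  have h1 : ∀ s ∈ F, ∀ t ∈ F, (Setoid.ker c s t ↔ E s t) := fun s hs t ht => by
    simp [Setoid.ker_def, c, hs, ht, Quotient.eq]
  have h2 : ∀ s ∈ G, ∀ t ∈ G, (Setoid.ker c s t ↔ E' s t) := fun s hs t ht => by
    simp [Setoid.ker_def, c, hG s hs, hG t ht, Quotient.eq]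
  have h3 : ∀ s ∈ F, ∀ t ∈ G, ¬ Setoid.ker c s t := fun s hs t ht => by
    simp [Setoid.ker_def, c, hs, hG t ht]
  refine ⟨Setoid.ker c, fun s hs t ht hst => ?_, fun a => ?_⟩
  · rcases mem_union.1 hs with hs | hs <;> rcases mem_union.1 ht with ht | ht
    · exact h s hs t ht ((h1 s hs t ht).1 hst)
    · exact absurd hst (h3 s hs t ht)
    · exact absurd ((Setoid.ker c).symm hst) (h3 t ht s hs)
    · exact h' s hs t ht ((h2 s hs t ht).1 hst)
  · unfold bil
    rw [sum_union hd]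
    congr 1
    · refine sum_congr rfl (fun s hs => ?_)
      rw [sum_union hd, sum_eq_zero (s := G) (fun t ht => if_neg (h3 s hs t ht)), add_zero]
      exact sum_congr rfl (fun t ht => by simp only [h1 s hs t ht])
    · refine sum_congr rfl (fun s hs => ?_)
      rw [sum_union hd, sum_eq_zero (s := F)
        (fun t ht => if_neg (fun h => h3 t ht s hs ((Setoid.ker c).symm h))), zero_add]
      exact sum_congr rfl (fun t ht => by simp only [h2 s hs t ht])

theorem bil_top (F : Finset P) (a : P → ℝ) : bil F ⊤ a a = (∑ t ∈ F, a t) ^ 2 := by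
  unfold bil
  rw [sq, sum_mul_sum]
  refine sum_congr rfl (fun s _ => sum_congr rfl (fun t _ => ?_))
  rw [if_pos (by trivial)]

theorem bil_le_top (F : Finset P) (E : Setoid P) {a : P → ℝ} (ha : ∀ t, 0 ≤ a t) :
    bil F E a a ≤ (∑ t ∈ F, a t) ^ 2 := by
  unfold bil
  rw [sq, sum_mul_sum]
  refine sum_le_sum (fun s _ => sum_le_sum (fun t _ => ?_))
  split_ifs
  · exact le_rfl
  · exact mul_nonneg (ha s) (ha t)

theorem bil_anti (F : Finset P) (E : Setoid P) (a : P → ℝ)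
    (h : ∀ s ∈ F, ∀ t ∈ F, E s t → a s ≠ 0 → a t ≠ 0 → s = t) :
    bil F E a a = ∑ t ∈ F, a t ^ 2 := by
  unfold bil
  refine sum_congr rfl (fun s hs => ?_)
  rw [sum_eq_single s]
  · rw [if_pos (E.refl s), sq]
  · intro t ht hts
    split_ifs with hE
    · by_contra hne
      exact hts (h s hs t ht hE (left_ne_zero_of_mul hne) (right_ne_zero_of_mul hne)).symm
    · rfl
  · intro h; exact absurd hs h

theorem adm_bot (F : Finset P) : Adm F ⊥ := fun s _ t _ h => by
  have : s = t := h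
  rw [this]; exact cmp_refl t

theorem bil_bot (F : Finset P) (a : P → ℝ) : bil F ⊥ a a = ∑ t ∈ F, a t ^ 2 :=
  bil_anti F ⊥ a (fun _ _ _ _ h _ _ => h)

variable {𝕜 : Type*} [RCLike 𝕜]

/-- value of a pattern -/
noncomputable def val (F : Finset P) (E : Setoid P) (x : P → 𝕜) : ℝ :=
  bil F E (fun t => ‖x t‖) (fun t => ‖x t‖)

theorem val_nonneg (F : Finset P) (E : Setoid P) (x : P → 𝕜) : 0 ≤ val F E x :=
  bil_self_nonneg _ _ _

theorem val_add_le (F : Finset P) (E : Setoid P) (x y : P → 𝕜) :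
    val F E (x + y) ≤ (√(val F E x) + √(val F E y)) ^ 2 := by
  have h1 : val F E (x + y) ≤ bil F E (fun t => ‖x t‖ + ‖y t‖) (fun t => ‖x t‖ + ‖y t‖) :=
    bil_mono F E (fun _ _ => norm_nonneg _) (fun t _ => norm_add_le _ _)
  rw [bil_add] at h1
  have h2 := bil_cs F E (fun t => ‖x t‖) (fun t => ‖y t‖)
  have h3 := Real.sq_sqrt (val_nonneg F E x)
  have h4 := Real.sq_sqrt (val_nonneg F E y)
  unfold val at *
  nlinarith

theorem val_le_of_le (F : Finset P) (E : Setoid P) {x y : P → 𝕜} {K : ℝ}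
    (h : ∀ t, ‖y t‖ ≤ K * ‖x t‖) : val F E y ≤ K ^ 2 * val F E x := by
  unfold val
  rw [← bil_smul]
  exact bil_mono F E (fun _ _ => norm_nonneg _) (fun t _ => h t)

/-- finiteness of the norm -/
def Bdd (x : P → 𝕜) : Prop := ∃ M : ℝ, ∀ F E, Adm F E → val F E x ≤ M

theorem Bdd.of_le {x y : P → 𝕜} (hx : Bdd x) {K : ℝ} (h : ∀ t, ‖y t‖ ≤ K * ‖x t‖) : Bdd y := by
  obtain ⟨M, hM⟩ := hx
  exact ⟨K ^ 2 * M, fun F E hFE => (val_le_of_le F E h).trans
    (mul_le_mul_of_nonneg_left (hM F E hFE) (sq_nonneg K))⟩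

variable (𝕜) in
/-- the underlying subspace -/
def sub : Submodule 𝕜 (P → 𝕜) where
  carrier := {x | Bdd x}
  zero_mem' := ⟨0, fun F E _ => by simp [val, bil]⟩
  add_mem' := by
    rintro x y ⟨M, hM⟩ ⟨N, hN⟩
    refine ⟨(√M + √N) ^ 2, fun F E h => (val_add_le F E x y).trans ?_⟩
    gcongr
    · exact hM F E h
    · exact hN F E h
  smul_mem' := fun c x hx => Bdd.of_le hx (K := ‖c‖) (fun t => by simp)

variable (𝕜) in
/-- the tree space -/
def TX : Type _ := sub 𝕜

noncomputable instance : AddCommGroup (TX 𝕜) := inferInstanceAs (AddCommGroup (sub 𝕜))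
noncomputable instance : Module 𝕜 (TX 𝕜) := inferInstanceAs (Module 𝕜 (sub 𝕜))

/-- coordinates -/
def TX.c (x : TX 𝕜) : P → 𝕜 := Subtype.val (p := fun x => x ∈ sub 𝕜) x

theorem TX.bdd (x : TX 𝕜) : Bdd x.c := Subtype.property (p := fun x => x ∈ sub 𝕜) x

/-- constructor -/
def TX.mk (x : P → 𝕜) (h : Bdd x) : TX 𝕜 := (⟨x, h⟩ : sub 𝕜)

@[simp] theorem TX.mk_c (x : P → 𝕜) (h : Bdd x) : (TX.mk x h).c = x := rfl
@[simp] theorem TX.add_c (x y : TX 𝕜) : (x + y).c = x.c + y.c := rfl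
@[simp] theorem TX.sub_c (x y : TX 𝕜) : (x - y).c = x.c - y.c := rfl
@[simp] theorem TX.neg_c (x : TX 𝕜) : (-x).c = -x.c := rfl
@[simp] theorem TX.zero_c : (0 : TX 𝕜).c = 0 := rfl
@[simp] theorem TX.smul_c (a : 𝕜) (x : TX 𝕜) : (a • x).c = a • x.c := rfl
theorem TX.ext {x y : TX 𝕜} (h : ∀ t, x.c t = y.c t) : x = y := Subtype.ext (funext h)

noncomputable instance : Norm (TX 𝕜) :=
  ⟨fun x => √(sSup {v | ∃ F E, Adm F E ∧ v = val F E x.c})⟩

theorem TX.norm_def (x : TX 𝕜) : ‖x‖ = √(sSup {v | ∃ F E, Adm F E ∧ v = val F E x.c}) := rfl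

theorem TX.val_le_sSup (x : TX 𝕜) {F : Finset P} {E : Setoid P} (h : Adm F E) :
    val F E x.c ≤ sSup {v | ∃ F E, Adm F E ∧ v = val F E x.c} := by
  obtain ⟨M, hM⟩ := x.bdd
  refine le_csSup ⟨M, ?_⟩ ⟨F, E, h, rfl⟩
  rintro v ⟨F, E, h, rfl⟩
  exact hM F E h

theorem TX.nn (x : TX 𝕜) : 0 ≤ ‖x‖ := Real.sqrt_nonneg _

theorem TX.val_le (x : TX 𝕜) {F : Finset P} {E : Setoid P} (h : Adm F E) :
    val F E x.c ≤ ‖x‖ ^ 2 := by
  rw [TX.norm_def, Real.sq_sqrt ((val_nonneg _ _ _).trans (x.val_le_sSup h))]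
  exact x.val_le_sSup h

theorem TX.sq_le (x : TX 𝕜) {M : ℝ} (h : ∀ F E, Adm F E → val F E x.c ≤ M) : ‖x‖ ^ 2 ≤ M := by
  rw [TX.norm_def, Real.sq_sqrt ((val_nonneg _ _ _).trans (x.val_le_sSup (adm_bot ∅)))]
  refine csSup_le ⟨_, ∅, ⊥, adm_bot ∅, rfl⟩ ?_
  rintro v ⟨F, E, hFE, rfl⟩
  exact h F E hFE

theorem TX.norm_le (x : TX 𝕜) {M : ℝ} (hM : 0 ≤ M)
    (h : ∀ F E, Adm F E → val F E x.c ≤ M ^ 2) : ‖x‖ ≤ M :=
  (pow_le_pow_iff_left₀ x.nn hM two_ne_zero).1 (x.sq_le h)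

theorem TX.sqrt_val_le (x : TX 𝕜) {F : Finset P} {E : Setoid P} (h : Adm F E) :
    √(val F E x.c) ≤ ‖x‖ := by
  rw [Real.sqrt_le_left x.nn]
  exact x.val_le h

theorem TX.norm_le_of_le {x y : TX 𝕜} {K : ℝ} (hK : 0 ≤ K) (h : ∀ t, ‖y.c t‖ ≤ K * ‖x.c t‖) :
    ‖y‖ ≤ K * ‖x‖ := by
  refine y.norm_le (mul_nonneg hK x.nn) (fun F E hFE => (val_le_of_le F E h).trans ?_)
  rw [mul_pow]
  exact mul_le_mul_of_nonneg_left (x.val_le hFE) (sq_nonneg K)

theorem TX.sum_sq_le (x : TX 𝕜) (F : Finset P) : ∑ t ∈ F, ‖x.c t‖ ^ 2 ≤ ‖x‖ ^ 2 := by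
  have := x.val_le (adm_bot F)
  rwa [val, bil_bot] at this

theorem TX.coord_le (x : TX 𝕜) (t : P) : ‖x.c t‖ ≤ ‖x‖ := by
  have := x.sum_sq_le {t}
  rw [sum_singleton] at this
  exact (pow_le_pow_iff_left₀ (norm_nonneg _) x.nn two_ne_zero).1 this

theorem TX.core : NormedSpace.Core 𝕜 (TX 𝕜) where
  norm_nonneg := TX.nn
  norm_smul c x := by
    refine le_antisymm (TX.norm_le_of_le (norm_nonneg c) (fun t => by simp)) ?_
    by_cases hc : c = 0
    · rw [hc, norm_zero, zero_mul]; exact TX.nn _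
    have hc' : 0 < ‖c‖ := norm_pos_iff.2 hc
    have : ‖x‖ ≤ ‖c‖⁻¹ * ‖c • x‖ := TX.norm_le_of_le (by positivity) (fun t => by
      simp only [TX.smul_c, Pi.smul_apply, smul_eq_mul, norm_mul]
      rw [← mul_assoc, inv_mul_cancel₀ hc'.ne', one_mul])
    calc ‖c‖ * ‖x‖ ≤ ‖c‖ * (‖c‖⁻¹ * ‖c • x‖) := by gcongr
      _ = _ := by rw [← mul_assoc, mul_inv_cancel₀ hc'.ne', one_mul]
  norm_triangle x y := by
    refine TX.norm_le _ (add_nonneg x.nn y.nn) (fun F E h => (val_add_le F E x.c y.c).trans ?_)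
    gcongr
    · exact x.sqrt_val_le h
    · exact y.sqrt_val_le h
  norm_eq_zero_iff x := by
    constructor
    · intro h
      refine TX.ext (fun t => ?_)
      have := x.coord_le t
      rw [h] at this
      simpa using this
    · rintro rfl
      exact le_antisymm (TX.norm_le _ le_rfl (fun F E _ => by simp [val, bil])) (TX.nn _)

noncomputable instance : NormedAddCommGroup (TX 𝕜) := NormedAddCommGroup.ofCore TX.core
noncomputable instance : NormedSpace 𝕜 (TX 𝕜) := NormedSpace.ofCore TX.core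

instance : CompleteSpace (TX 𝕜) := by
  refine Metric.complete_of_cauchySeq_tendsto (fun u hu => ?_)
  have hc : ∀ t, CauchySeq (fun n => (u n).c t) := fun t => by
    rw [Metric.cauchySeq_iff] at hu ⊢
    intro ε hε
    obtain ⟨N, hN⟩ := hu ε hε
    refine ⟨N, fun m hm n hn => lt_of_le_of_lt ?_ (hN m hm n hn)⟩
    rw [dist_eq_norm, dist_eq_norm]
    exact (u m - u n).coord_le t
  choose y hy using fun t => cauchySeq_tendsto_of_complete (hc t)
  have key : ∀ ε > 0, ∃ N, ∀ n ≥ N, ∀ F E, Adm F E → val F E ((u n).c - y) ≤ ε ^ 2 := by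
    intro ε hε
    obtain ⟨N, hN⟩ := Metric.cauchySeq_iff.1 hu ε hε
    refine ⟨N, fun n hn F E h => ?_⟩
    have ht : Filter.Tendsto (fun m => val F E ((u n).c - (u m).c)) Filter.atTop
        (nhds (val F E ((u n).c - y))) := by
      unfold val bil
      refine tendsto_finsetSum _ (fun s _ => tendsto_finsetSum _ (fun t _ => ?_))
      split_ifs
      · exact ((tendsto_const_nhds.sub (hy s)).norm).mul ((tendsto_const_nhds.sub (hy t)).norm)
      · exact tendsto_const_nhds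
    refine le_of_tendsto ht (Filter.eventually_atTop.2 ⟨N, fun m hm => ?_⟩)
    refine ((u n - u m).val_le h).trans ?_
    have := hN n hn m hm
    rw [dist_eq_norm] at this
    exact pow_le_pow_left₀ (norm_nonneg _) this.le 2
  obtain ⟨N, hN⟩ := key 1 one_pos
  have hyb : Bdd y := by
    have h1 : (u N).c - y ∈ sub 𝕜 := ⟨_, hN N le_rfl⟩
    have h2 := (sub 𝕜).sub_mem (u N).bdd h1
    rwa [sub_sub_cancel] at h2
  refine ⟨TX.mk y hyb, Metric.tendsto_atTop.2 (fun ε hε => ?_)⟩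
  obtain ⟨N, hN⟩ := key (ε / 2) (half_pos hε)
  refine ⟨N, fun n hn => ?_⟩
  rw [dist_eq_norm]
  exact lt_of_le_of_lt (TX.norm_le _ (half_pos hε).le (hN n hn)) (half_lt_self hε)

end Pool.Agent.H713Z.Prim
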